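import Mathlib
import Pool.Agent.H534R3.UD

/-! # Weyl's criterion for families of finite sets -/

set_option autoImplicit false

open MeasureTheory Filter Topology
open scoped Real

namespace Pool.Agent.K9h10.PD

open Pool.Agent.H534R3.UDist (ee norm_ee dist_coe)

variable {J : Type*} {L : Filter J} {ι : J → Type*}

/-- Weyl's condition. -/
def WeylF (L : Filter J) (A : ∀ j, Finset (ι j)) (x : ∀ j, ι j → ℝ) : Prop := ∀ h : ℕ, 1 ≤ h →
  Tendsto (fun j : J => ‖∑ n ∈ A j, ee (h * x j n)‖ / ((A j).card : ℝ)) L (𝓝 0)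

theorem mean (A : ∀ j, Finset (ι j)) (x : ∀ j, ι j → ℝ) (hA : ∀ᶠ j in L, 0 < (A j).card)
    (hx : WeylF L A x) (F : C(UnitAddCircle, ℂ)) :
    Tendsto (fun j : J => (∑ n ∈ A j, F (x j n : UnitAddCircle)) / ((A j).card : ℂ)) L
      (𝓝 (∫ z, F z ∂AddCircle.haarAddCircle)) := by
  -- the exponentials
  have h1 : ∀ m : ℤ, Tendsto (fun j : J => (∑ n ∈ A j,
      (fourier m : C(UnitAddCircle, ℂ)) (x j n : UnitAddCircle)) / ((A j).card : ℂ)) L
      (𝓝 (∫ z, (fourier m : C(UnitAddCircle, ℂ)) z ∂AddCircle.haarAddCircle)) := by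
    intro m
    have hint : ∫ z, (fourier m : C(UnitAddCircle, ℂ)) z ∂AddCircle.haarAddCircle =
        if m = 0 then 1 else 0 := by
      have e1 : fourierCoeff (T := 1) (fourier m : C(UnitAddCircle, ℂ)) 0 =
          ∫ z, (fourier m : C(UnitAddCircle, ℂ)) z ∂AddCircle.haarAddCircle := by
        simp [fourierCoeff]
      rw [← e1, fourierCoeff_fourier]
      by_cases hm : m = 0
      · rw [if_pos hm, hm, Pi.single_eq_same]
      · rw [if_neg hm, Pi.single_eq_of_ne (Ne.symm hm)]
    rw [hint]
    by_cases hm : m = 0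
    · rw [if_pos hm, hm]
      refine tendsto_const_nhds.congr' ?_
      filter_upwards [hA] with j hj
      have : ((A j).card : ℂ) ≠ 0 := by exact_mod_cast hj.ne'
      simp [this]
    · rw [if_neg hm, tendsto_zero_iff_norm_tendsto_zero]
      obtain ⟨h, hh, hmh⟩ : ∃ h : ℕ, 1 ≤ h ∧ (m = h ∨ m = -h) := by
        refine ⟨m.natAbs, ?_, ?_⟩
        · omega
        · omega
      refine (hx h hh).congr fun j => ?_
      rw [norm_div, Complex.norm_natCast]
      congr 1
      have hfe : ∀ t : ℝ, (fourier (h : ℤ) : C(UnitAddCircle, ℂ)) (t : UnitAddCircle) =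
          ee (h * t) := by
        intro t
        rw [fourier_coe_apply, ee]
        congr 1
        push_cast
        ring
      rcases hmh with rfl | rfl
      · congr 1
        exact Finset.sum_congr rfl fun n _ => (hfe _).symm
      · have e2 : ∑ n ∈ A j, (fourier (-(h : ℤ)) : C(UnitAddCircle, ℂ)) (x j n : UnitAddCircle)
            = (starRingEnd ℂ) (∑ n ∈ A j, ee (h * x j n)) := by
          rw [map_sum]
          exact Finset.sum_congr rfl fun n _ => by rw [fourier_neg, hfe]
        rw [e2, RCLike.norm_conj]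
  have h2 : ∀ p ∈ Submodule.span ℂ (Set.range (fourier (T := 1))),
      Tendsto (fun j : J => (∑ n ∈ A j, p (x j n : UnitAddCircle)) / ((A j).card : ℂ)) L
      (𝓝 (∫ z, p z ∂AddCircle.haarAddCircle)) := by
    intro p hp
    induction hp using Submodule.span_induction with
    | mem p hp =>
      obtain ⟨m, rfl⟩ := hp
      exact h1 m
    | zero => simpa using tendsto_const_nhds
    | add p q _ _ hp hq =>
      have e1 : ∫ z, (p + q) z ∂AddCircle.haarAddCircle =
          ∫ z, p z ∂AddCircle.haarAddCircle + ∫ z, q z ∂(AddCircle.haarAddCircle (T := 1)) := by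
        rw [← integral_add]
        · rfl
        · exact (map_continuous p).integrable_of_hasCompactSupport (HasCompactSupport.of_compactSpace _)
        · exact (map_continuous q).integrable_of_hasCompactSupport (HasCompactSupport.of_compactSpace _)
      rw [e1]
      refine (hp.add hq).congr fun N => ?_
      rw [← add_div, ← Finset.sum_add_distrib]
      rfl
    | smul c p _ hp =>
      have e1 : ∫ z, (c • p) z ∂AddCircle.haarAddCircle =
          c * ∫ z, p z ∂(AddCircle.haarAddCircle (T := 1)) := by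
        rw [← integral_const_mul]
        rfl
      rw [e1]
      refine (hp.const_mul c).congr fun N => ?_
      rw [← mul_div_assoc, Finset.mul_sum]
      rfl
  rw [Metric.tendsto_nhds]
  intro ε hε
  have h3 : F ∈ (Submodule.span ℂ (Set.range (fourier (T := 1)))).topologicalClosure := by
    rw [span_fourier_closure_eq_top]
    trivial
  have h4 : F ∈ closure ((Submodule.span ℂ (Set.range (fourier (T := 1))) : Submodule ℂ
      C(UnitAddCircle, ℂ)) : Set C(UnitAddCircle, ℂ)) := h3
  rw [Metric.mem_closure_iff] at h4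
  obtain ⟨p, hp, hFp⟩ := h4 (ε / 4) (by positivity)
  have h5 := Metric.tendsto_nhds.1 (h2 p hp) (ε / 4) (by positivity)
  have hpt : ∀ z, ‖F z - p z‖ ≤ ε / 4 := fun z => by
    have := ContinuousMap.norm_coe_le_norm (F - p) z
    rw [← dist_eq_norm] at this
    exact this.trans (by rw [dist_eq_norm] at hFp ⊢; exact hFp.le)
  filter_upwards [h5, hA] with j h6 hj
  have hN0 : (0 : ℝ) < (A j).card := by exact_mod_cast hj
  have h7 : ‖(∑ n ∈ A j, F (x j n : UnitAddCircle)) / ((A j).card : ℂ) -
      (∑ n ∈ A j, p (x j n : UnitAddCircle)) / ((A j).card : ℂ)‖ ≤ ε / 4 := by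
    rw [← sub_div, norm_div, Complex.norm_natCast, div_le_iff₀ hN0, ← Finset.sum_sub_distrib]
    refine (norm_sum_le _ _).trans ?_
    refine (Finset.sum_le_sum fun n _ => hpt _).trans ?_
    rw [Finset.sum_const, nsmul_eq_mul, mul_comm]
  have h8 : ‖(∫ z, p z ∂AddCircle.haarAddCircle) - ∫ z, F z ∂(AddCircle.haarAddCircle (T := 1))‖
      ≤ ε / 4 := by
    rw [← integral_sub]
    · refine (norm_integral_le_of_norm_le_const (C := ε / 4) (ae_of_all _ fun z => ?_)).trans ?_
      · rw [norm_sub_rev]
        exact hpt z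
      · simp
    · exact (map_continuous p).integrable_of_hasCompactSupport (HasCompactSupport.of_compactSpace _)
    · exact (map_continuous F).integrable_of_hasCompactSupport (HasCompactSupport.of_compactSpace _)
  rw [dist_eq_norm] at h6 ⊢
  set a := (∑ n ∈ A j, F (x j n : UnitAddCircle)) / ((A j).card : ℂ)
  set b := (∑ n ∈ A j, p (x j n : UnitAddCircle)) / ((A j).card : ℂ)
  set c := ∫ z, p z ∂(AddCircle.haarAddCircle (T := 1))
  set d := ∫ z, F z ∂(AddCircle.haarAddCircle (T := 1))
  have h9 : a - d = (a - b) + (b - c) + (c - d) := by ring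
  rw [h9]
  refine lt_of_le_of_lt (norm_add₃_le) ?_
  linarith

/-- The number of the elements with the fractional part in an interval. -/
noncomputable def cntF (A : ∀ j, Finset (ι j)) (x : ∀ j, ι j → ℝ) (s t : ℝ) (j : J) : ℕ :=
  ((A j).filter (fun n => s ≤ Int.fract (x j n) ∧ Int.fract (x j n) < t)).card

theorem upper (A : ∀ j, Finset (ι j)) (x : ∀ j, ι j → ℝ) (hA : ∀ᶠ j in L, 0 < (A j).card)
    (hx : WeylF L A x) (s t η : ℝ) (hst : s ≤ t) (hη : 0 < η) :
    ∀ᶠ j in L, (cntF A x s t j : ℝ) ≤ (t - s + η) * (A j).card := by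
  set c : ℝ := (s + t) / 2 with hc
  set r : ℝ := (t - s) / 2 with hr
  set η' : ℝ := η / 4 with hη'
  have hη'0 : 0 < η' := by positivity
  set f : UnitAddCircle → ℝ := fun z => max 0 (min 1 (1 + (r - dist z (c : UnitAddCircle)) / η')) with hf
  have hfc : Continuous f := by
    refine continuous_const.max (continuous_const.min ?_)
    exact continuous_const.add ((continuous_const.sub (continuous_id.dist continuous_const)).div_const _)
  have hf0 : ∀ z, 0 ≤ f z := fun z => le_max_left _ _
  have hf1 : ∀ z, f z ≤ 1 := fun z => max_le zero_le_one (min_le_left _ _)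
  set F : C(UnitAddCircle, ℂ) := ⟨fun z => (f z : ℂ), Complex.continuous_ofReal.comp hfc⟩ with hF
  have hm := mean A x hA hx F
  have hint : ∫ z, F z ∂AddCircle.haarAddCircle = ((∫ z, f z ∂(AddCircle.haarAddCircle (T := 1)) : ℝ) : ℂ) :=
    integral_ofReal
  have hm2 : Tendsto (fun j : J => (∑ n ∈ A j, f (x j n : UnitAddCircle)) / ((A j).card : ℝ)) L
      (𝓝 (∫ z, f z ∂(AddCircle.haarAddCircle (T := 1)))) := by
    rw [hint] at hm
    have h1 := (Complex.continuous_re.tendsto _).comp hm
    rw [Complex.ofReal_re] at h1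
    refine h1.congr fun N => ?_
    simp only [Function.comp_apply, hF, ContinuousMap.coe_mk]
    rw [← Complex.ofReal_sum, ← Complex.ofReal_natCast, ← Complex.ofReal_div, Complex.ofReal_re]
  have hbound : ∫ z, f z ∂(AddCircle.haarAddCircle (T := 1)) ≤ 2 * (r + η') := by
    have h1 : ∀ z, f z ≤ Set.indicator (Metric.closedBall (c : UnitAddCircle) (r + η')) (fun _ => (1 : ℝ)) z := by
      intro z
      by_cases hz : z ∈ Metric.closedBall (c : UnitAddCircle) (r + η')
      · rw [Set.indicator_of_mem hz]
        exact hf1 z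
      · rw [Set.indicator_of_notMem hz]
        rw [Metric.mem_closedBall, not_le] at hz
        refine max_le le_rfl ((min_le_right _ _).trans ?_)
        have h2 : (r - dist z (c : UnitAddCircle)) / η' ≤ -1 := by
          rw [div_le_iff₀ hη'0]
          linarith
        linarith
    have h2 : ∫ z, f z ∂(AddCircle.haarAddCircle (T := 1)) ≤
        ∫ z, Set.indicator (Metric.closedBall (c : UnitAddCircle) (r + η')) (fun _ => (1 : ℝ)) z
          ∂(AddCircle.haarAddCircle (T := 1)) := by
      refine integral_mono ?_ ?_ h1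
      · exact hfc.integrable_of_hasCompactSupport (HasCompactSupport.of_compactSpace _)
      · exact (integrable_const 1).indicator measurableSet_closedBall
    refine h2.trans ?_
    rw [integral_indicator measurableSet_closedBall, setIntegral_const, smul_eq_mul, mul_one]
    have h3 : (AddCircle.haarAddCircle (T := 1)) = (volume : Measure UnitAddCircle) := by
      rw [AddCircle.volume_eq_smul_haarAddCircle]
      simp
    rw [h3, Measure.real, AddCircle.volume_closedBall]
    rw [ENNReal.toReal_ofReal]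
    · exact min_le_right _ _
    · refine le_min zero_le_one ?_
      have : 0 ≤ r := by rw [hr]; linarith
      positivity
  have hev : ∀ᶠ j in L,
      (∑ n ∈ A j, f (x j n : UnitAddCircle)) / ((A j).card : ℝ) < t - s + η := by
    refine hm2.eventually (gt_mem_nhds ?_)
    refine lt_of_le_of_lt hbound ?_
    rw [hr, hη']
    linarith
  filter_upwards [hev, hA] with j hN hN0
  have hN0' : (0 : ℝ) < (A j).card := by exact_mod_cast hN0
  rw [div_lt_iff₀ hN0'] at hN
  refine le_trans ?_ hN.le
  rw [cntF, Finset.card_filter]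
  push_cast
  refine Finset.sum_le_sum fun n _ => ?_
  split_ifs with h
  · have h1 : dist (x j n : UnitAddCircle) (c : UnitAddCircle) ≤ r := by
      refine (dist_coe _ _).trans ?_
      rw [abs_le, hc, hr]
      constructor <;> linarith [h.1, h.2]
    have h2 : 1 ≤ 1 + (r - dist (x j n : UnitAddCircle) (c : UnitAddCircle)) / η' := by
      have : 0 ≤ (r - dist (x j n : UnitAddCircle) (c : UnitAddCircle)) / η' :=
        div_nonneg (by linarith) hη'0.le
      linarith
    exact le_max_of_le_right (le_min le_rfl h2)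
  · exact hf0 _

theorem cnt_split (A : ∀ j, Finset (ι j)) (x : ∀ j, ι j → ℝ) {s t : ℝ} (hst : s ≤ t) (j : J) :
    cntF A x 0 s j + cntF A x s t j + cntF A x t 1 j = (A j).card := by
  rw [cntF, cntF, cntF, Finset.card_filter, Finset.card_filter, Finset.card_filter,
    ← Finset.sum_add_distrib, ← Finset.sum_add_distrib]
  conv_rhs => rw [Finset.card_eq_sum_ones]
  refine Finset.sum_congr rfl fun n _ => ?_
  have h0 := Int.fract_nonneg (x j n)
  have h1 := Int.fract_lt_one (x j n)
  by_cases c1 : Int.fract (x j n) < s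
  · rw [if_pos ⟨h0, c1⟩, if_neg (fun h => absurd h.1 (not_le.2 c1)),
      if_neg (fun h => absurd h.1 (not_le.2 (lt_of_lt_of_le c1 hst)))]
  · by_cases c2 : Int.fract (x j n) < t
    · rw [if_neg (fun h => c1 h.2), if_pos ⟨not_lt.1 c1, c2⟩,
        if_neg (fun h => absurd h.1 (not_le.2 c2))]
    · rw [if_neg (fun h => c1 h.2), if_neg (fun h => c2 h.2), if_pos ⟨not_lt.1 c2, h1⟩]

/-- Weyl's criterion for families of finite sets. -/
theorem ud_of_weyl (A : ∀ j, Finset (ι j)) (x : ∀ j, ι j → ℝ) (hA : ∀ᶠ j in L, 0 < (A j).card)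
    (hx : WeylF L A x) (s t : ℝ) (hs : 0 ≤ s) (hst : s ≤ t) (ht : t ≤ 1) (ε : ℝ) (hε : 0 < ε) :
    ∀ᶠ j in L, |(cntF A x s t j : ℝ) - (t - s) * (A j).card| ≤ ε * (A j).card := by
  filter_upwards [upper A x hA hx s t (ε / 3) hst (by positivity),
    upper A x hA hx 0 s (ε / 3) hs (by positivity),
    upper A x hA hx t 1 (ε / 3) ht (by positivity), hA] with j h1 h2 h3 h4
  have hN0 : (0 : ℝ) < (A j).card := by exact_mod_cast h4
  have h5 : (cntF A x 0 s j : ℝ) + cntF A x s t j + cntF A x t 1 j = (A j).card := by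
    exact_mod_cast cnt_split A x hst j
  rw [abs_le]
  constructor <;> nlinarith

end Pool.Agent.K9h10.PD
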