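import Mathlib

/-! # Words with a given number of each letter -/

set_option autoImplicit false

open Finset

namespace Pool.Agent.K9h10.PD

/-- the words of length `N` in which the letter `c` occurs `κ c` times -/
def Wd {b : ℕ} (N : ℕ) (κ : Fin b → ℕ) : Finset (Fin N → Fin b) :=
  univ.filter fun a => ∀ c, (univ.filter fun i => a i = c).card = κ c

variable {b N : ℕ} {κ : Fin b → ℕ}

lemma mem_Wd {a : Fin N → Fin b} :
    a ∈ Wd N κ ↔ ∀ c, (univ.filter fun i => a i = c).card = κ c := by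
  unfold Wd
  rw [mem_filter]
  exact ⟨fun h => h.2, fun h => ⟨mem_univ _, h⟩⟩

lemma comp_mem {a : Fin N → Fin b} (ha : a ∈ Wd N κ) (σ : Equiv.Perm (Fin N)) :
    a ∘ σ ∈ Wd N κ := by
  rw [mem_Wd] at ha ⊢
  intro c
  rw [← ha c]
  refine card_bij (fun i _ => σ i) (fun i hi => ?_) (fun i _ l _ h => σ.injective h)
    (fun i hi => ⟨σ.symm i, ?_, by simp⟩)
  · rw [mem_filter] at hi ⊢
    exact ⟨mem_univ _, hi.2⟩
  · rw [mem_filter] at hi ⊢
    refine ⟨mem_univ _, ?_⟩
    simpa using hi.2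

lemma comp_mem_iff {a : Fin N → Fin b} (σ : Equiv.Perm (Fin N)) :
    a ∘ σ ∈ Wd N κ ↔ a ∈ Wd N κ := by
  refine ⟨fun h => ?_, fun h => comp_mem h σ⟩
  have := comp_mem h σ.symm
  have e : (a ∘ σ) ∘ σ.symm = a := by
    funext i
    simp
  rwa [e] at this

/-- sums over the words are invariant -/
lemma sum_comp {M : Type*} [AddCommMonoid M] (f : (Fin N → Fin b) → M) (σ : Equiv.Perm (Fin N)) :
    ∑ a ∈ Wd N κ, f (a ∘ σ) = ∑ a ∈ Wd N κ, f a := by
  refine sum_bij (fun a _ => a ∘ σ) (fun a ha => comp_mem ha σ) (fun a _ a' _ h => ?_)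
    (fun a ha => ⟨a ∘ σ.symm, comp_mem ha σ.symm, ?_⟩) (fun a _ => rfl)
  · funext i
    have := congrFun h (σ.symm i)
    simpa using this
  · funext i
    simp

/-- the number of the pairs with different letters -/
def Dif (a : Fin N → Fin b) : ℕ := (univ.filter fun p : Fin N × Fin N => a p.1 ≠ a p.2).card

lemma Dif_eq {a : Fin N → Fin b} (ha : a ∈ Wd N κ) : Dif a = ∑ c, κ c * (N - κ c) := by
  rw [mem_Wd] at ha
  have h1 : ∀ i : Fin N, (univ.filter fun l : Fin N => a i ≠ a l).card = N - κ (a i) := by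
    intro i
    have h2 := Finset.card_filter_add_card_filter_not (s := (univ : Finset (Fin N)))
      (fun l => a l = a i)
    rw [ha (a i), card_univ, Fintype.card_fin] at h2
    have h3 : (univ.filter fun l : Fin N => a i ≠ a l) = univ.filter fun l : Fin N => ¬ a l = a i := by
      ext l
      simp only [mem_filter, mem_univ, true_and]
      exact ⟨fun h h' => h h'.symm, fun h h' => h h'.symm⟩
    rw [h3]
    omega
  have h2 : Dif a = ∑ i : Fin N, (univ.filter fun l : Fin N => a i ≠ a l).card := by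
    unfold Dif
    rw [card_filter, ← univ_product_univ, sum_product]
    refine sum_congr rfl fun i _ => ?_
    rw [card_filter]
  rw [h2]
  simp_rw [h1]
  rw [← Finset.sum_fiberwise_of_maps_to (s := (univ : Finset (Fin N))) (t := (univ : Finset (Fin b)))
    (g := a) (fun i _ => mem_univ _)]
  refine sum_congr rfl fun c _ => ?_
  rw [← ha c, ← smul_eq_mul, ← sum_const]
  refine sum_congr rfl fun i hi => ?_
  rw [mem_filter] at hi
  rw [hi.2, ha c]

/-- the value of a symmetric sum does not depend on the places -/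
lemma sum_emb {k : ℕ} {M : Type*} [AddCommMonoid M] (f : (Fin k → Fin b) → M) (e e' : Fin k ↪ Fin N) :
    ∑ a ∈ Wd N κ, f (fun i => a (e i)) = ∑ a ∈ Wd N κ, f (fun i => a (e' i)) := by
  obtain ⟨σ, hσ⟩ := Equiv.Perm.exists_smul_eq_embedding e' e
  rw [← sum_comp (κ := κ) (fun a => f (fun i => a (e' i))) σ]
  refine sum_congr rfl fun a _ => ?_
  congr 1
  funext i
  have h1 := congrArg (fun g : Fin k ↪ Fin N => g i) hσ
  simp only [Function.Embedding.smul_apply, Equiv.Perm.smul_def] at h1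
  rw [Function.comp_apply, h1]

/-- the indicator function of different letters -/
def ne1 (x y : Fin b) : ℝ := if x ≠ y then 1 else 0

lemma ne1_nonneg (x y : Fin b) : 0 ≤ ne1 x y := by
  unfold ne1
  split_ifs <;> norm_num

lemma ne1_le (x y : Fin b) : ne1 x y ≤ 1 := by
  unfold ne1
  split_ifs <;> norm_num

lemma ne1_sq (x y : Fin b) : ne1 x y * ne1 x y = ne1 x y := by
  unfold ne1
  split_ifs <;> norm_num

lemma sum_ne1 (a : Fin N → Fin b) : ∑ i, ∑ l, ne1 (a i) (a l) = Dif a := by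
  unfold Dif ne1
  rw [card_filter, ← univ_product_univ, sum_product]
  push_cast
  rfl

/-- a pair as an embedding -/
def emb2 {N : ℕ} (u v : Fin N) (h : u ≠ v) : Fin 2 ↪ Fin N :=
  ⟨![u, v], by
    intro i j hij
    fin_cases i <;> fin_cases j <;> simp_all⟩

/-- four places as an embedding -/
def emb4 {N : ℕ} (u v u' v' : Fin N) (h1 : u ≠ v) (h2 : u ≠ u') (h3 : u ≠ v') (h4 : v ≠ u')
    (h5 : v ≠ v') (h6 : u' ≠ v') : Fin 4 ↪ Fin N :=
  ⟨![u, v, u', v'], by
    intro i j hij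
    fin_cases i <;> fin_cases j <;> simp_all⟩

/-- first moment -/
lemma first (u v : Fin N) (h : u ≠ v) (D : ℝ) (hD : ∀ a ∈ Wd N κ, (Dif a : ℝ) = D) :
    ((N : ℝ) * (N - 1)) * ∑ a ∈ Wd N κ, ne1 (a u) (a v) = D * (Wd N κ).card := by
  have h1 : ∑ e : Fin 2 ↪ Fin N, ∑ a ∈ Wd N κ, ne1 (a (e 0)) (a (e 1)) =
      ((N : ℝ) * (N - 1)) * ∑ a ∈ Wd N κ, ne1 (a u) (a v) := by
    rw [sum_congr rfl fun e _ => sum_emb (κ := κ) (fun x : Fin 2 → Fin b => ne1 (x 0) (x 1)) e
      (emb2 u v h), sum_const, card_univ, Fintype.card_embedding_eq, Fintype.card_fin,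
      Fintype.card_fin, nsmul_eq_mul]
    congr 1
    rw [Nat.cast_descFactorial_two]
  rw [← h1, sum_comm]
  have h2 : ∀ a ∈ Wd N κ, ∑ e : Fin 2 ↪ Fin N, ne1 (a (e 0)) (a (e 1)) = D := by
    intro a ha
    rw [← hD a ha, ← sum_ne1, ← sum_product', univ_product_univ]
    rw [← sum_filter_add_sum_filter_not (univ : Finset (Fin N × Fin N)) (fun p => p.1 ≠ p.2)]
    have h3 : ∑ p ∈ (univ : Finset (Fin N × Fin N)).filter (fun p => ¬ p.1 ≠ p.2),
        ne1 (a p.1) (a p.2) = 0 := by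
      refine sum_eq_zero fun p hp => ?_
      rw [mem_filter, not_not] at hp
      rw [hp.2]
      simp [ne1]
    rw [h3, add_zero]
    refine sum_bij (fun e _ => (e 0, e 1)) (fun e _ => ?_) (fun e _ e' _ h => ?_)
      (fun p hp => ?_) (fun e _ => rfl)
    · rw [mem_filter]
      refine ⟨mem_univ _, ?_⟩
      simp
    · rw [Prod.mk.injEq] at h
      ext i
      fin_cases i
      · exact congrArg Fin.val h.1
      · exact congrArg Fin.val h.2
    · rw [mem_filter] at hp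
      exact ⟨emb2 p.1 p.2 hp.2, mem_univ _, rfl⟩
  rw [sum_congr rfl h2, sum_const, nsmul_eq_mul, mul_comm]

/-- second moment -/
lemma second (u v u' v' : Fin N) (h1 : u ≠ v) (h2 : u ≠ u') (h3 : u ≠ v') (h4 : v ≠ u')
    (h5 : v ≠ v') (h6 : u' ≠ v') (D : ℝ) (hD : ∀ a ∈ Wd N κ, (Dif a : ℝ) = D) :
    (N.descFactorial 4 : ℝ) * ∑ a ∈ Wd N κ, ne1 (a u) (a v) * ne1 (a u') (a v') ≤
      D ^ 2 * (Wd N κ).card := by
  have e1 : ∑ e : Fin 4 ↪ Fin N, ∑ a ∈ Wd N κ, ne1 (a (e 0)) (a (e 1)) * ne1 (a (e 2)) (a (e 3)) =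
      (N.descFactorial 4 : ℝ) * ∑ a ∈ Wd N κ, ne1 (a u) (a v) * ne1 (a u') (a v') := by
    rw [sum_congr rfl fun e _ => sum_emb (κ := κ)
      (fun x : Fin 4 → Fin b => ne1 (x 0) (x 1) * ne1 (x 2) (x 3)) e
      (emb4 u v u' v' h1 h2 h3 h4 h5 h6), sum_const, card_univ, Fintype.card_embedding_eq,
      Fintype.card_fin, Fintype.card_fin, nsmul_eq_mul]
    rfl
  rw [← e1, sum_comm]
  have e2 : ∀ a ∈ Wd N κ, ∑ e : Fin 4 ↪ Fin N, ne1 (a (e 0)) (a (e 1)) * ne1 (a (e 2)) (a (e 3)) ≤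
      D ^ 2 := by
    intro a ha
    have e3 : D ^ 2 = ∑ q : (Fin N × Fin N) × (Fin N × Fin N),
        ne1 (a q.1.1) (a q.1.2) * ne1 (a q.2.1) (a q.2.2) := by
      rw [← hD a ha, ← sum_ne1, ← sum_product', univ_product_univ, sq, sum_mul_sum, ← sum_product',
        univ_product_univ]
    rw [e3]
    have e4 : ∑ e : Fin 4 ↪ Fin N, ne1 (a (e 0)) (a (e 1)) * ne1 (a (e 2)) (a (e 3)) =
        ∑ q ∈ (univ : Finset (Fin 4 ↪ Fin N)).image (fun e => ((e 0, e 1), (e 2, e 3))),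
          ne1 (a q.1.1) (a q.1.2) * ne1 (a q.2.1) (a q.2.2) := by
      rw [sum_image]
      intro e _ e' _ h
      simp only [Prod.mk.injEq] at h
      ext i
      fin_cases i
      · exact congrArg Fin.val h.1.1
      · exact congrArg Fin.val h.1.2
      · exact congrArg Fin.val h.2.1
      · exact congrArg Fin.val h.2.2
    rw [e4]
    exact sum_le_sum_of_subset_of_nonneg (subset_univ _) fun q _ _ =>
      mul_nonneg (ne1_nonneg _ _) (ne1_nonneg _ _)
  refine (sum_le_sum e2).trans (le_of_eq ?_)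
  rw [sum_const, nsmul_eq_mul, mul_comm]

end Pool.Agent.K9h10.PD
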