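import Mathlib
import Pool.Agent.K9h10.PD.Sym
import Pool.Agent.K9h10.SM.Ch

/-! # Exponential sums over the words, by exchanging letters -/

set_option autoImplicit false

open Finset

namespace Pool.Agent.K9h10.PD

open Pool.Agent.H534R3.UDist (ee norm_ee)
open Pool.Agent.K9h10.SM (ee_add ee_zero ee_re nd nd_nonneg sin_ge)

variable {b N : ℕ} {κ : Fin b → ℕ}

/-- the value of a word -/
noncomputable def vl (a : Fin N → Fin b) : ℝ := ∑ i, ((a i : ℕ) : ℝ) * (b : ℝ) ^ (i : ℕ)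

/-- the change of the value under an exchange -/
noncomputable def dv (u v : Fin N) (a : Fin N → Fin b) : ℝ :=
  (((a v : ℕ) : ℝ) - ((a u : ℕ) : ℝ)) * ((b : ℝ) ^ (u : ℕ) - (b : ℝ) ^ (v : ℕ))

lemma vl_swap (u v : Fin N) (a : Fin N → Fin b) : vl (a ∘ Equiv.swap u v) = vl a + dv u v a := by
  unfold vl dv
  by_cases h : u = v
  · subst h
    simp
  have h1 : ∀ f : Fin N → ℝ, ∑ i, f i = f u + (f v + ∑ i ∈ (univ.erase u).erase v, f i) := by
    intro f
    rw [← add_sum_erase univ f (mem_univ u), ← add_sum_erase (univ.erase u) f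
      (mem_erase.2 ⟨fun h' => h h'.symm, mem_univ v⟩)]
  rw [h1, h1 (fun i => ((a i : ℕ) : ℝ) * (b : ℝ) ^ (i : ℕ))]
  simp only [Function.comp_apply, Equiv.swap_apply_left, Equiv.swap_apply_right]
  have h2 : ∑ i ∈ (univ.erase u).erase v, ((a (Equiv.swap u v i) : ℕ) : ℝ) * (b : ℝ) ^ (i : ℕ) =
      ∑ i ∈ (univ.erase u).erase v, ((a i : ℕ) : ℝ) * (b : ℝ) ^ (i : ℕ) := by
    refine sum_congr rfl fun i hi => ?_
    rw [mem_erase, mem_erase] at hi
    rw [Equiv.swap_apply_of_ne_of_ne hi.2.1 hi.1]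
  rw [h2]
  ring

/-- one exchange -/
noncomputable def rr (θ : ℝ) (u v : Fin N) (a : Fin N → Fin b) : ℂ := (1 + ee (θ * dv u v a)) / 2

lemma dv_comp_of_ne {u v u' v' : Fin N} (h2 : u ≠ u') (h3 : u ≠ v') (h4 : v ≠ u')
    (h5 : v ≠ v') (a : Fin N → Fin b) : dv u v (a ∘ Equiv.swap u' v') = dv u v a := by
  unfold dv
  simp only [Function.comp_apply]
  rw [Equiv.swap_apply_of_ne_of_ne h4 h5, Equiv.swap_apply_of_ne_of_ne h2 h3]

/-- the averaging over the exchanges -/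
lemma sum_eq_swap (θ : ℝ) {ι : Type} [DecidableEq ι] (S : Finset ι) (u v : ι → Fin N)
    (hd : ∀ i ∈ S, ∀ l ∈ S, i ≠ l → u i ≠ u l ∧ u i ≠ v l ∧ v i ≠ u l ∧ v i ≠ v l) :
    ∑ a ∈ Wd N κ, ee (θ * vl a) =
      ∑ a ∈ Wd N κ, ee (θ * vl a) * ∏ i ∈ S, rr θ (u i) (v i) a := by
  induction S using Finset.induction_on with
  | empty => simp
  | insert l S hl ih =>
    rw [ih fun i hi j hj hij => hd i (mem_insert_of_mem hi) j (mem_insert_of_mem hj) hij]
    set Q : (Fin N → Fin b) → ℂ := fun a => ∏ i ∈ S, rr θ (u i) (v i) a with hQ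
    have hinv : ∀ a, Q (a ∘ Equiv.swap (u l) (v l)) = Q a := by
      intro a
      rw [hQ]
      refine prod_congr rfl fun i hi => ?_
      have hil : i ≠ l := fun h => hl (h ▸ hi)
      obtain ⟨h2, h3, h4, h5⟩ := hd i (mem_insert_of_mem hi) l (mem_insert_self _ _) hil
      unfold rr
      rw [dv_comp_of_ne h2 h3 h4 h5]
    have h1 : ∑ a ∈ Wd N κ, ee (θ * vl a) * Q a =
        ∑ a ∈ Wd N κ, ee (θ * vl a) * ee (θ * dv (u l) (v l) a) * Q a := by
      rw [← sum_comp (fun a => ee (θ * vl a) * Q a) (Equiv.swap (u l) (v l))]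
      refine sum_congr rfl fun a _ => ?_
      rw [hinv, vl_swap, mul_add, ee_add]
    have h2 : ∑ a ∈ Wd N κ, ee (θ * vl a) * ∏ i ∈ insert l S, rr θ (u i) (v i) a =
        (∑ a ∈ Wd N κ, ee (θ * vl a) * Q a +
          ∑ a ∈ Wd N κ, ee (θ * vl a) * ee (θ * dv (u l) (v l) a) * Q a) / 2 := by
      rw [← sum_add_distrib, sum_div]
      refine sum_congr rfl fun a _ => ?_
      rw [prod_insert hl, rr]
      ring
    rw [h2, ← h1]
    ring

lemma norm_rr_le (θ : ℝ) (u v : Fin N) (a : Fin N → Fin b) :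
    ‖rr θ u v a‖ ≤ Real.exp (-(2 * nd (θ * dv u v a) ^ 2)) := by
  set t := θ * dv u v a with ht
  have e1 : ‖rr θ u v a‖ ^ 2 = 1 - Real.sin (Real.pi * t) ^ 2 := by
    unfold rr
    rw [← ht, norm_div, div_pow, ← Complex.normSq_eq_norm_sq (1 + ee t), Complex.normSq_add,
      Complex.normSq_one, Complex.normSq_eq_norm_sq (ee t), norm_ee, one_mul, Complex.conj_re, ee_re]
    have e2 : Real.cos (2 * Real.pi * t) = 1 - 2 * Real.sin (Real.pi * t) ^ 2 := by
      rw [mul_assoc, Real.cos_two_mul, Real.cos_sq']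
      ring
    rw [e2]
    norm_num
    ring
  have h1 := sin_ge t
  have h2 := nd_nonneg t
  have h3 : 4 * nd t ^ 2 ≤ Real.sin (Real.pi * t) ^ 2 := by
    rw [← sq_abs (Real.sin _)]
    nlinarith
  have h4 : ‖rr θ u v a‖ ^ 2 ≤ Real.exp (-(2 * nd t ^ 2)) ^ 2 := by
    rw [e1, ← Real.exp_nat_mul]
    have := Real.add_one_le_exp (((2 : ℕ) : ℝ) * -(2 * nd t ^ 2))
    push_cast at this ⊢
    linarith
  exact abs_le_of_sq_le_sq' h4 (Real.exp_pos _).le |>.2

end Pool.Agent.K9h10.PD
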