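import Mathlib
import Pool.Agent.K9h10.PD.Swap

/-! # The bound for the exponential sums over the words -/

set_option autoImplicit false

open Finset

namespace Pool.Agent.K9h10.PD

open Pool.Agent.H534R3.UDist (ee norm_ee)
open Pool.Agent.K9h10.SM (nd nd_nonneg)

variable {b N : ℕ} {κ : Fin b → ℕ}

lemma desc4 {N : ℕ} (hN : 8 ≤ N) :
    (N.descFactorial 4 : ℝ) = N * (N - 1) * (N - 2) * (N - 3) := by
  obtain ⟨m, rfl⟩ := Nat.exists_eq_add_of_le hN
  have h : (8 + m).descFactorial 4 = (m + 5) * ((m + 6) * ((m + 7) * (m + 8))) := by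
    rw [Nat.descFactorial_succ, Nat.descFactorial_succ, Nat.descFactorial_succ,
      Nat.descFactorial_succ, Nat.descFactorial_zero]
    rw [show 8 + m - 3 = m + 5 by omega, show 8 + m - 2 = m + 6 by omega,
      show 8 + m - 1 = m + 7 by omega, show 8 + m - 0 = m + 8 by omega, mul_one]
  rw [h]
  push_cast
  ring

/-- the number of exchanged pairs with different letters -/
noncomputable def Y {ι : Type} (S : Finset ι) (u v : ι → Fin N) (a : Fin N → Fin b) : ℝ :=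
  ∑ i ∈ S, ne1 (a (u i)) (a (v i))

lemma moments {ι : Type} [DecidableEq ι] (S : Finset ι) (u v : ι → Fin N)
    (hne : ∀ i ∈ S, u i ≠ v i)
    (hd : ∀ i ∈ S, ∀ l ∈ S, i ≠ l → u i ≠ u l ∧ u i ≠ v l ∧ v i ≠ u l ∧ v i ≠ v l)
    (hN : 8 ≤ N) (hS : (S.card : ℝ) ≤ N) (D : ℝ) (hD : ∀ a ∈ Wd N κ, (Dif a : ℝ) = D) (hD0 : 0 ≤ D)
    (hDN : D ≤ N * (N - 1)) (μ : ℝ) (hμ : μ = S.card * (D / (N * (N - 1)))) :
    ∑ a ∈ Wd N κ, (Y S u v a - μ) ^ 2 ≤ 9 * μ * (Wd N κ).card := by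
  have hNR : (8 : ℝ) ≤ N := by exact_mod_cast hN
  have hN1 : (0 : ℝ) < N * (N - 1) := by nlinarith
  have hN4 : (0 : ℝ) < N * (N - 1) * (N - 2) * (N - 3) := by
    have h1 : (0 : ℝ) < N - 2 := by linarith
    have h2 : (0 : ℝ) < N - 3 := by linarith
    positivity
  set w : ℝ := ((Wd N κ).card : ℝ) with hw
  have hw0 : 0 ≤ w := Nat.cast_nonneg _
  have h1 : ∀ i ∈ S, ∑ a ∈ Wd N κ, ne1 (a (u i)) (a (v i)) = D / (N * (N - 1)) * w := by
    intro i hi
    have := first (κ := κ) (u i) (v i) (hne i hi) D hD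
    rw [div_mul_eq_mul_div, eq_div_iff hN1.ne']
    linarith
  have hY1 : ∑ a ∈ Wd N κ, Y S u v a = μ * w := by
    unfold Y
    rw [sum_comm, sum_congr rfl h1, sum_const, nsmul_eq_mul, hμ]
    ring
  have h2 : ∀ i ∈ S, ∀ l ∈ S, i ≠ l →
      ∑ a ∈ Wd N κ, ne1 (a (u i)) (a (v i)) * ne1 (a (u l)) (a (v l)) ≤
        D ^ 2 / (N * (N - 1) * (N - 2) * (N - 3)) * w := by
    intro i hi l hl hil
    obtain ⟨g1, g2, g3, g4⟩ := hd i hi l hl hil
    have := second (κ := κ) (u i) (v i) (u l) (v l) (hne i hi) g1 g2 g3 g4 (hne l hl) D hD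
    rw [desc4 hN] at this
    rw [div_mul_eq_mul_div, le_div_iff₀ hN4]
    linarith
  have hY2 : ∑ a ∈ Wd N κ, Y S u v a ^ 2 ≤
      μ * w + (S.card : ℝ) ^ 2 * (D ^ 2 / (N * (N - 1) * (N - 2) * (N - 3)) * w) := by
    have e1 : ∑ a ∈ Wd N κ, Y S u v a ^ 2 =
        ∑ i ∈ S, ∑ l ∈ S, ∑ a ∈ Wd N κ, ne1 (a (u i)) (a (v i)) * ne1 (a (u l)) (a (v l)) := by
      unfold Y
      simp_rw [sq, sum_mul_sum]
      rw [sum_comm]
      refine sum_congr rfl fun i _ => ?_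
      rw [sum_comm]
    rw [e1]
    set T : ℝ := D ^ 2 / (N * (N - 1) * (N - 2) * (N - 3)) * w with hT
    have hT0 : 0 ≤ T := by positivity
    have e2 : ∀ i ∈ S, ∑ l ∈ S, ∑ a ∈ Wd N κ, ne1 (a (u i)) (a (v i)) * ne1 (a (u l)) (a (v l)) ≤
        D / (N * (N - 1)) * w + S.card * T := by
      intro i hi
      rw [← add_sum_erase S _ hi]
      refine add_le_add (le_of_eq ?_) ?_
      · rw [← h1 i hi]
        exact sum_congr rfl fun a _ => ne1_sq _ _
      · calc ∑ l ∈ S.erase i, ∑ a ∈ Wd N κ, ne1 (a (u i)) (a (v i)) * ne1 (a (u l)) (a (v l))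
            ≤ ∑ _l ∈ S.erase i, T := by
              refine sum_le_sum fun l hl => ?_
              rw [mem_erase] at hl
              exact h2 i hi l hl.2 fun h => hl.1 h.symm
          _ = (S.erase i).card * T := by rw [sum_const, nsmul_eq_mul]
          _ ≤ S.card * T := by
              refine mul_le_mul_of_nonneg_right ?_ hT0
              exact_mod_cast card_le_card (erase_subset _ _)
    refine (sum_le_sum e2).trans (le_of_eq ?_)
    rw [sum_const, nsmul_eq_mul, hμ]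
    ring
  have hμ0 : 0 ≤ μ := by rw [hμ]; positivity
  have hμN : μ ≤ N := by
    rw [hμ]
    have h3 : D / (N * (N - 1)) ≤ 1 := by rw [div_le_one hN1]; exact hDN
    have h4 : 0 ≤ D / (N * (N - 1)) := by positivity
    have h5 : (0 : ℝ) ≤ S.card := Nat.cast_nonneg _
    nlinarith
  have hkey : (S.card : ℝ) ^ 2 * (D ^ 2 / (N * (N - 1) * (N - 2) * (N - 3))) ≤
      μ ^ 2 + 8 * μ := by
    have e3 : (S.card : ℝ) ^ 2 * (D ^ 2 / (N * (N - 1) * (N - 2) * (N - 3))) =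
        μ ^ 2 * (N * (N - 1) / ((N - 2) * (N - 3))) := by
      have g1 : (N : ℝ) ≠ 0 := by positivity
      have g2 : (N : ℝ) - 1 ≠ 0 := by linarith
      have g3 : (N : ℝ) - 2 ≠ 0 := by linarith
      have g4 : (N : ℝ) - 3 ≠ 0 := by linarith
      rw [hμ]
      field_simp
    have e4 : (N : ℝ) * (N - 1) / ((N - 2) * (N - 3)) ≤ 1 + 8 / N := by
      have g1 : (0 : ℝ) < N := by linarith
      have g3 : (0 : ℝ) < (N - 2) * (N - 3) := by nlinarith
      rw [div_le_iff₀ g3]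
      have : (1 + 8 / (N : ℝ)) * ((N - 2) * (N - 3)) = (N + 8) * ((N - 2) * (N - 3)) / N := by
        field_simp
      rw [this, le_div_iff₀ g1]
      nlinarith
    rw [e3]
    have e5 : μ ^ 2 * (8 / (N : ℝ)) ≤ 8 * μ := by
      have g1 : (0 : ℝ) < N := by linarith
      rw [mul_div_assoc', div_le_iff₀ g1]
      nlinarith
    calc μ ^ 2 * ((N : ℝ) * (N - 1) / ((N - 2) * (N - 3))) ≤ μ ^ 2 * (1 + 8 / N) :=
          mul_le_mul_of_nonneg_left e4 (sq_nonneg _)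
      _ ≤ μ ^ 2 + 8 * μ := by rw [mul_add, mul_one]; linarith
  have e6 : ∑ a ∈ Wd N κ, (Y S u v a - μ) ^ 2 =
      ∑ a ∈ Wd N κ, Y S u v a ^ 2 - 2 * μ * ∑ a ∈ Wd N κ, Y S u v a + μ ^ 2 * w := by
    have : ∀ a ∈ Wd N κ, (Y S u v a - μ) ^ 2 = Y S u v a ^ 2 - 2 * μ * Y S u v a + μ ^ 2 :=
      fun a _ => by ring
    rw [sum_congr rfl this, sum_add_distrib, sum_sub_distrib, ← mul_sum, sum_const, nsmul_eq_mul]
    ring
  rw [e6, hY1]
  have h7 : (S.card : ℝ) ^ 2 * (D ^ 2 / (N * (N - 1) * (N - 2) * (N - 3)) * w) ≤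
      (μ ^ 2 + 8 * μ) * w := by
    rw [← mul_assoc]
    exact mul_le_mul_of_nonneg_right hkey hw0
  nlinarith

/-- **The bound for the exponential sum.** -/
theorem weyl_bound {ι : Type} [DecidableEq ι] (S : Finset ι) (u v : ι → Fin N) (θ δ : ℝ)
    (hδ : 0 ≤ δ) (hne : ∀ i ∈ S, u i ≠ v i)
    (hd : ∀ i ∈ S, ∀ l ∈ S, i ≠ l → u i ≠ u l ∧ u i ≠ v l ∧ v i ≠ u l ∧ v i ≠ v l)
    (hg : ∀ i ∈ S, ∀ a : Fin N → Fin b, a (u i) ≠ a (v i) → δ ≤ nd (θ * dv (u i) (v i) a))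
    (hN : 8 ≤ N) (hS : (S.card : ℝ) ≤ N) (hκ : ∑ c, κ c = N) (R : ℝ)
    (hR : ∀ c, R ≤ (N : ℝ) - κ c) (M : ℝ) (hM : 0 < M) (hMR : M * N ≤ S.card * R) :
    ‖∑ a ∈ Wd N κ, ee (θ * vl a)‖ ≤ (Real.exp (-(δ ^ 2 * M)) + 36 / M) * (Wd N κ).card := by
  have hNR : (8 : ℝ) ≤ N := by exact_mod_cast hN
  have hN0 : (0 : ℝ) < N := by linarith
  have hN1 : (0 : ℝ) < N * (N - 1) := by nlinarith
  set D : ℝ := ((∑ c, κ c * (N - κ c) : ℕ) : ℝ) with hDdef
  have hD : ∀ a ∈ Wd N κ, (Dif a : ℝ) = D := fun a ha => by rw [Dif_eq ha]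
  have hκN : ∀ c, κ c ≤ N := fun c => by
    rw [← hκ]
    exact single_le_sum (fun _ _ => Nat.zero_le _) (mem_univ c)
  have hDeq : D = ∑ c, (κ c : ℝ) * ((N : ℝ) - κ c) := by
    rw [hDdef]
    push_cast
    refine sum_congr rfl fun c _ => ?_
    rw [Nat.cast_sub (hκN c)]
  have hDR : R * N ≤ D := by
    have h1 : (N : ℝ) = ∑ c, (κ c : ℝ) := by exact_mod_cast hκ.symm
    rw [hDeq]
    conv_lhs => rw [h1]
    rw [mul_sum]
    refine sum_le_sum fun c _ => ?_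
    rw [mul_comm]
    exact mul_le_mul_of_nonneg_left (hR c) (Nat.cast_nonneg _)
  have hDN : D ≤ N * (N - 1) := by
    have h1 : (N : ℝ) * (N - 1) = ∑ c, (κ c : ℝ) * (N - 1) := by
      rw [← sum_mul]
      congr 1
      exact_mod_cast hκ.symm
    rw [hDeq, h1]
    refine sum_le_sum fun c _ => ?_
    rcases Nat.eq_zero_or_pos (κ c) with h | h
    · rw [h]
      simp
    · have : (1 : ℝ) ≤ κ c := by exact_mod_cast h
      exact mul_le_mul_of_nonneg_left (by linarith) (Nat.cast_nonneg _)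
  have hD0 : 0 ≤ D := Nat.cast_nonneg _
  set μ : ℝ := S.card * (D / (N * (N - 1))) with hμ
  have hμM : M ≤ μ := by
    have h1 : (S.card : ℝ) * R / N ≤ μ := by
      rw [hμ, ← mul_div_assoc, div_le_div_iff₀ hN0 hN1]
      have h2 : (0 : ℝ) ≤ S.card := Nat.cast_nonneg _
      have h3 : R * (N * (N - 1)) ≤ D * N := by
        have h4 : R * N * (N - 1) ≤ D * (N - 1) := mul_le_mul_of_nonneg_right hDR (by linarith)
        nlinarith
      calc (S.card : ℝ) * R * (N * (N - 1)) = S.card * (R * (N * (N - 1))) := by ring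
        _ ≤ S.card * (D * N) := mul_le_mul_of_nonneg_left h3 h2
        _ = S.card * D * N := by ring
    refine le_trans ?_ h1
    rw [le_div_iff₀ hN0]
    exact hMR
  have hμ0 : 0 < μ := by linarith
  have hmom := moments S u v hne hd hN hS D hD hD0 hDN μ hμ
  have hpt : ∀ a : Fin N → Fin b, ‖ee (θ * vl a) * ∏ i ∈ S, rr θ (u i) (v i) a‖ ≤
      Real.exp (-(δ ^ 2 * M)) + 4 / μ ^ 2 * (Y S u v a - μ) ^ 2 := by
    intro a
    rw [norm_mul, norm_ee, one_mul, norm_prod]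
    have h1 : ∏ i ∈ S, ‖rr θ (u i) (v i) a‖ ≤ Real.exp (-(2 * δ ^ 2 * Y S u v a)) := by
      unfold Y
      rw [mul_sum, ← sum_neg_distrib, Real.exp_sum]
      refine prod_le_prod (fun i _ => norm_nonneg _) fun i hi => ?_
      refine (norm_rr_le _ _ _ _).trans (Real.exp_le_exp.2 (neg_le_neg ?_))
      unfold ne1
      split_ifs with h
      · have := hg i hi a h
        rw [mul_one]
        have h2 := nd_nonneg (θ * dv (u i) (v i) a)
        nlinarith
      · rw [mul_zero]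
        positivity
    refine h1.trans ?_
    have hδ2 : 0 ≤ δ ^ 2 := sq_nonneg _
    rcases le_or_gt (μ / 2) (Y S u v a) with h | h
    · have h2 : Real.exp (-(2 * δ ^ 2 * Y S u v a)) ≤ Real.exp (-(δ ^ 2 * M)) := by
        refine Real.exp_le_exp.2 (neg_le_neg ?_)
        nlinarith
      have h3 : 0 ≤ 4 / μ ^ 2 * (Y S u v a - μ) ^ 2 := by positivity
      linarith
    · have hY0 : 0 ≤ Y S u v a := sum_nonneg fun i _ => ne1_nonneg _ _
      have h2 : Real.exp (-(2 * δ ^ 2 * Y S u v a)) ≤ 1 := by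
        rw [Real.exp_le_one_iff]
        have : 0 ≤ 2 * δ ^ 2 * Y S u v a := by positivity
        linarith
      have h3 : 1 ≤ 4 / μ ^ 2 * (Y S u v a - μ) ^ 2 := by
        rw [div_mul_eq_mul_div, le_div_iff₀ (by positivity)]
        nlinarith
      have h4 := Real.exp_pos (-(δ ^ 2 * M))
      linarith
  rw [sum_eq_swap θ S u v hd]
  refine (norm_sum_le _ _).trans ((sum_le_sum fun a _ => hpt a).trans ?_)
  rw [sum_add_distrib, sum_const, nsmul_eq_mul, ← mul_sum]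
  have hw0 : (0 : ℝ) ≤ (Wd N κ).card := Nat.cast_nonneg _
  have h5 : 4 / μ ^ 2 * ∑ a ∈ Wd N κ, (Y S u v a - μ) ^ 2 ≤ 36 / M * (Wd N κ).card := by
    calc 4 / μ ^ 2 * ∑ a ∈ Wd N κ, (Y S u v a - μ) ^ 2 ≤ 4 / μ ^ 2 * (9 * μ * (Wd N κ).card) :=
          mul_le_mul_of_nonneg_left hmom (by positivity)
      _ = 36 / μ * (Wd N κ).card := by
          field_simp
          ring
      _ ≤ 36 / M * (Wd N κ).card := by
          refine mul_le_mul_of_nonneg_right ?_ hw0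
          exact div_le_div_of_nonneg_left (by norm_num) hM hμM
  linarith

end Pool.Agent.K9h10.PD
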