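import Mathlib
import Pool.Agent.K9h10.PD.Arr

/-! # Weyl's criterion with finitely many frequencies -/

set_option autoImplicit false

open Finset Filter Topology

namespace Pool.Agent.K9h10.PD

open Pool.Agent.H534R3.UDist (ee norm_ee)

theorem finite_weyl (s t : ℝ) (hs : 0 ≤ s) (hst : s ≤ t) (ht : t ≤ 1) (ε : ℝ) (hε : 0 < ε) :
    ∃ H : ℕ, 0 < H ∧ ∀ (ι : Type) (A : Finset ι) (x : ι → ℝ),
      (∀ h : ℕ, 1 ≤ h → h ≤ H → ‖∑ a ∈ A, ee (h * x a)‖ ≤ 1 / (H : ℝ) * A.card) →
      |(((A.filter fun a => s ≤ Int.fract (x a) ∧ Int.fract (x a) < t).card : ℕ) : ℝ)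
        - (t - s) * A.card| ≤ ε * A.card := by
  by_contra hcon
  push Not at hcon
  choose ι A x hW hbad using fun n : ℕ => hcon (n + 1) (Nat.succ_pos n)
  have hcard : ∀ n, 0 < (A n).card := by
    intro n
    by_contra h0
    have h0' : (A n).card = 0 := by omega
    have h1 := hbad n
    rw [card_eq_zero] at h0'
    rw [h0'] at h1
    simp at h1
  have hWF : WeylF atTop A x := by
    intro h hh
    refine squeeze_zero' (Eventually.of_forall fun n => by positivity) ?_
      tendsto_one_div_add_atTop_nhds_zero_nat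
    filter_upwards [eventually_ge_atTop h] with n hn
    have h1 := hW n h hh (by omega)
    have h4 : (0 : ℝ) < (A n).card := by exact_mod_cast hcard n
    rw [div_le_iff₀ h4]
    push_cast at h1
    exact h1
  have hfin := ud_of_weyl (L := atTop) A x (Eventually.of_forall hcard) hWF s t hs hst ht ε hε
  obtain ⟨n, hn⟩ := hfin.exists
  have h1 := hbad n
  unfold cntF at hn
  linarith

end Pool.Agent.K9h10.PD
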