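import Mathlib
import Pool.Agent.K9h10.PD.Arr
import Pool.Agent.K9h10.PD.Est

/-! # Multiples by integers with prescribed digits -/

set_option autoImplicit false

open Finset Filter Topology

namespace Pool.Agent.K9h10.PD

open Pool.Agent.H534R3.UDist (ee norm_ee)
open Pool.Agent.K9h10.SM (nd nd_nonneg nd_int_mul exists_nD exists_seq)

/-- the exponential sums for one frequency -/
lemma bound_h {b : ℕ} (hb : 2 ≤ b) {α : ℝ} (hα : Irrational α) (hL : ¬ Liouville α) {h : ℤ}
    (hh : h ≠ 0) : ∃ C δ : ℝ, 0 < C ∧ 0 < δ ∧ ∃ N₀ : ℕ, ∀ N : ℕ, N₀ ≤ N → ∀ κ : Fin b → ℕ,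
      ∑ c, κ c = N → ∀ K : ℝ, 0 < K → (∀ c, K * N ≤ ((N : ℝ) - κ c) * Real.log N) →
        ‖∑ a ∈ Wd N κ, ee (h * (α * vl a))‖ ≤
          (Real.exp (-(δ ^ 2 * (C * K))) + 36 / (C * K)) * (Wd N κ).card := by
  set F : ℕ := (b - 1).factorial with hF
  have hF0 : 0 < F := Nat.factorial_pos _
  have hFR : (0 : ℝ) < F := by exact_mod_cast hF0
  have hb0 : (0 : ℝ) < b := by exact_mod_cast (by omega : 0 < b)
  set T : ℤ := ((b : ℤ) - 1) * F with hT
  have hT0 : T * h ≠ 0 := by
    refine mul_ne_zero (mul_ne_zero ?_ ?_) hh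
    · omega
    · exact_mod_cast hF0.ne'
  obtain ⟨m₀, D, hmD⟩ := exists_nD hb hα hL hT0
  obtain ⟨A, J, hA, hJ⟩ := exists_seq hb _ m₀ D hmD
  have hAR : (2 : ℝ) ≤ A := by exact_mod_cast hA
  have hlA : 0 < Real.log A := Real.log_pos (by linarith)
  refine ⟨1 / (4 * Real.log A), 1 / (2 * b * F), by positivity, by positivity, A ^ 2 + 8,
    fun N hN κ hκ K hK hcond => ?_⟩
  have hN8 : 8 ≤ N := by omega
  have hNA : A ^ 2 ≤ N := by omega
  have hNR : (8 : ℝ) ≤ N := by exact_mod_cast hN8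
  have hN0 : (0 : ℝ) < N := by linarith
  have hlN : 0 < Real.log N := Real.log_pos (by linarith)
  set m : ℕ := Nat.log (A ^ 2) N with hm
  have hA2 : 1 < A ^ 2 := by nlinarith
  have hm1 : 1 ≤ m := Nat.le_log_of_pow_le hA2 (by simpa using hNA)
  have hmN : (A ^ 2) ^ m ≤ N := Nat.pow_log_le_self _ (by omega)
  have hmN2 : A ^ (2 * m) ≤ N := by rw [pow_mul]; exact hmN
  have hstep : ∀ k, J k + 1 ≤ J (k + 1) := fun k => by
    have h1 := (hJ k).2.1
    have h2 := (hJ (k + 1)).1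
    omega
  have hmono : StrictMono J := strictMono_nat_of_lt_succ fun k => hstep k
  have hstep2 : ∀ k l, k < l → J (2 * k) + 1 < J (2 * l) := by
    intro k l hkl
    have h1 := hstep (2 * k)
    have h2 := hstep (2 * k + 1)
    have h3 : J (2 * k + 1 + 1) ≤ J (2 * l) := hmono.monotone (by omega)
    omega
  have hlt : ∀ k, k < m → J (2 * k) + 1 < N := by
    intro k hk
    have h1 := (hJ (2 * k)).2.1
    have h2 : A ^ (2 * k + 1) < A ^ (2 * m) := Nat.pow_lt_pow_right (by omega) (by omega)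
    omega
  set u : Fin m → Fin N := fun k => ⟨J (2 * k), by have := hlt k k.2; omega⟩ with hu
  set v : Fin m → Fin N := fun k => ⟨J (2 * k) + 1, hlt k k.2⟩ with hv
  set C : ℝ := 1 / (4 * Real.log A) with hC
  have hmlog : C * Real.log N ≤ m := by
    have h1 : N < (A ^ 2) ^ (m + 1) := Nat.lt_pow_succ_log_self hA2 N
    have h2 : (N : ℝ) < ((A : ℝ) ^ 2) ^ (m + 1) := by exact_mod_cast h1
    have h3 := Real.log_lt_log hN0 h2
    rw [Real.log_pow, Real.log_pow] at h3
    push_cast at h3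
    have h4 : (1 : ℝ) ≤ m := by exact_mod_cast hm1
    rw [hC, div_mul_eq_mul_div, one_mul, div_le_iff₀ (by positivity)]
    nlinarith
  have hcard : ((univ : Finset (Fin m)).card : ℝ) = m := by rw [card_univ, Fintype.card_fin]
  have hb1 : 1 ≤ b := by omega
  have hRc : ∀ c, K * N / Real.log N ≤ (N : ℝ) - κ c := fun c => by
    rw [div_le_iff₀ hlN]
    exact hcond c
  have key := weyl_bound (κ := κ) (univ : Finset (Fin m)) u v (h * α) (1 / (2 * b * F))
    (by positivity) (fun i _ hi => by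
      have := congrArg Fin.val hi
      simp [hu, hv] at this) (fun i _ l _ hil => by
      have hne : (i : ℕ) ≠ l := fun h' => hil (Fin.ext h')
      have h1 : ∀ {p q : Fin N}, (p : ℕ) ≠ q → p ≠ q := fun h' h'' => h' (congrArg Fin.val h'')
      rcases lt_or_gt_of_ne hne with h' | h'
      · have := hstep2 i l h'
        refine ⟨h1 ?_, h1 ?_, h1 ?_, h1 ?_⟩ <;> simp only [hu, hv] <;> omega
      · have := hstep2 l i h'
        refine ⟨h1 ?_, h1 ?_, h1 ?_, h1 ?_⟩ <;> simp only [hu, hv] <;> omega)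
    (fun i _ a ha => ?_) hN8 (by
      rw [hcard]
      have h1 : m ≤ (A ^ 2) ^ m := (Nat.lt_pow_self hA2).le
      exact_mod_cast h1.trans hmN) hκ (K * N / Real.log N) hRc (C * K) (by positivity) (by
      rw [hcard, mul_div_assoc', le_div_iff₀ hlN]
      nlinarith [mul_pos hK hN0])
  · have e : ∀ a : Fin N → Fin b, (h : ℝ) * (α * vl a) = h * α * vl a := fun a => by ring
    simp_rw [e]
    exact key
  · -- the good places
    set x : ℤ := ((a (v i) : ℕ) : ℤ) - ((a (u i) : ℕ) : ℤ) with hx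
    have hx0 : x ≠ 0 := by
      intro h0
      apply ha
      apply Fin.ext
      omega
    have hxb : x.natAbs ≤ b - 1 := by
      have h1 := (a (v i)).2
      have h2 := (a (u i)).2
      omega
    have hdvd : x ∣ (F : ℤ) := by
      rw [← Int.natAbs_dvd]
      have h5 : 0 < x.natAbs := by omega
      exact_mod_cast Nat.dvd_factorial h5 hxb
    obtain ⟨s, hs⟩ := hdvd
    have hsR : (F : ℝ) = x * s := by exact_mod_cast hs
    have hs1 : |((-s : ℤ) : ℝ)| ≤ F := by
      have h5 : |(F : ℝ)| = |(x : ℝ)| * |(s : ℝ)| := by rw [hsR, abs_mul]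
      rw [abs_of_pos hFR] at h5
      have h6 : (1 : ℝ) ≤ |(x : ℝ)| := by exact_mod_cast Int.one_le_abs hx0
      push_cast
      rw [abs_neg]
      nlinarith [abs_nonneg (s : ℝ)]
    have hdv : dv (u i) (v i) a = -((x : ℝ) * (((b : ℝ) - 1) * (b : ℝ) ^ J (2 * i))) := by
      unfold dv
      rw [hx]
      simp only [hu, hv]
      push_cast
      ring
    have h4 := nd_int_mul (-s) (h * α * dv (u i) (v i) a)
    have e4 : ((-s : ℤ) : ℝ) * (h * α * dv (u i) (v i) a) =
        (b : ℝ) ^ J (2 * i) * (((T * h : ℤ) : ℝ) * α) := by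
      rw [hdv, hT]
      push_cast
      rw [hsR]
      ring
    rw [e4] at h4
    have h7 := (hJ (2 * i)).2.2.trans h4
    have h8 : 1 / (2 * (b : ℝ)) ≤ F * nd (h * α * dv (u i) (v i) a) :=
      h7.trans (mul_le_mul_of_nonneg_right hs1 (nd_nonneg _))
    have e8 : 1 / (2 * (b : ℝ) * F) = 1 / (2 * (b : ℝ)) / F := by
      field_simp
    rw [e8, div_le_iff₀ hFR]
    linarith

/-- **Equidistribution.** -/
theorem main {b : ℕ} (hb : 2 ≤ b) {α : ℝ} (hα : Irrational α) (hL : ¬ Liouville α) (s t : ℝ)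
    (hs : 0 ≤ s) (hst : s ≤ t) (ht : t ≤ 1) (ε : ℝ) (hε : 0 < ε) :
    ∃ K : ℝ, ∀ y : ℝ, ∀ N : ℕ, 2 ≤ N → ∀ κ : Fin b → ℕ, ∑ c, κ c = N →
      (∀ c, K * N ≤ ((N : ℝ) - κ c) * Real.log N) →
      |((((Wd N κ).filter fun a => s ≤ Int.fract (y + α * vl a) ∧
        Int.fract (y + α * vl a) < t).card : ℕ) : ℝ)
        - (t - s) * (Wd N κ).card| ≤ ε * (Wd N κ).card := by
  by_contra hcon
  push Not at hcon
  choose y N hN2 κ hκ hcond hbad using fun n : ℕ => hcon (n : ℝ)
  have hlog : ∀ n : ℕ, (n : ℝ) ≤ Real.log (N n) := by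
    intro n
    have hN0 : (0 : ℝ) < N n := by exact_mod_cast (by have := hN2 n; omega : 0 < N n)
    have hc := hcond n ⟨0, by omega⟩
    have h1 : 0 ≤ Real.log (N n) := Real.log_nonneg (by exact_mod_cast (by have := hN2 n; omega : 1 ≤ N n))
    have h2 : (0 : ℝ) ≤ κ n ⟨0, by omega⟩ := Nat.cast_nonneg _
    have h3 : (n : ℝ) * N n ≤ N n * Real.log (N n) := by nlinarith
    nlinarith
  have hNtop : Tendsto N atTop atTop := by
    rw [tendsto_atTop]
    intro B
    filter_upwards [eventually_ge_atTop B] with n hn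
    have hN0 : (0 : ℝ) < N n := by exact_mod_cast (by have := hN2 n; omega : 0 < N n)
    have h1 := hlog n
    have h2 := Real.log_le_sub_one_of_pos hN0
    have h3 : (n : ℝ) ≤ N n := by linarith
    exact hn.trans (by exact_mod_cast h3)
  have hcardpos : ∀ n, 0 < (Wd (N n) (κ n)).card := by
    intro n
    by_contra h0
    have h0' : (Wd (N n) (κ n)).card = 0 := by omega
    have h1 := hbad n
    rw [card_eq_zero] at h0'
    rw [h0'] at h1
    simp at h1
  have hW : WeylF atTop (fun n => Wd (N n) (κ n)) (fun n a => y n + α * vl a) := by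
    intro h hh
    obtain ⟨C, δ, hC, hδ, N₀, hbd⟩ := bound_h hb hα hL (h := (h : ℤ)) (by omega)
    have hlim : Tendsto (fun n : ℕ => Real.exp (-(δ ^ 2 * (C * n))) + 36 / (C * n)) atTop (𝓝 0) := by
      have h1 : Tendsto (fun n : ℕ => C * (n : ℝ)) atTop atTop :=
        tendsto_natCast_atTop_atTop.const_mul_atTop hC
      have h2 : Tendsto (fun n : ℕ => Real.exp (-(δ ^ 2 * (C * n)))) atTop (𝓝 0) :=
        Real.tendsto_exp_neg_atTop_nhds_zero.comp (h1.const_mul_atTop (by positivity))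
      have h3 : Tendsto (fun n : ℕ => 36 / (C * (n : ℝ))) atTop (𝓝 0) :=
        tendsto_const_nhds.div_atTop h1
      simpa using h2.add h3
    refine squeeze_zero' (Eventually.of_forall fun n => by positivity) ?_ hlim
    filter_upwards [hNtop.eventually_ge_atTop N₀, eventually_gt_atTop 0] with n h1 h2
    have h3 := hbd (N n) h1 (κ n) (hκ n) n (by exact_mod_cast h2) (hcond n)
    have h4 : (0 : ℝ) < (Wd (N n) (κ n)).card := by exact_mod_cast hcardpos n
    rw [div_le_iff₀ h4]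
    have h5 : ‖∑ a ∈ Wd (N n) (κ n), ee (h * (y n + α * vl a))‖ =
        ‖∑ a ∈ Wd (N n) (κ n), ee (((h : ℤ) : ℝ) * (α * vl a))‖ := by
      have h6 : ∀ a ∈ Wd (N n) (κ n), ee (h * (y n + α * vl a)) =
          ee (h * y n) * ee (((h : ℤ) : ℝ) * (α * vl a)) := by
        intro a _
        rw [← Pool.Agent.K9h10.SM.ee_add]
        congr 1
        push_cast
        ring
      rw [sum_congr rfl h6, ← mul_sum, norm_mul, norm_ee, one_mul]
    rw [h5]
    exact h3
  have hfin := ud_of_weyl (L := atTop) (fun n => Wd (N n) (κ n)) (fun n a => y n + α * vl a)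
    (Eventually.of_forall hcardpos) hW s t hs hst ht ε hε
  obtain ⟨n, hn⟩ := hfin.exists
  have h1 := hbad n
  unfold cntF at hn
  linarith

end Pool.Agent.K9h10.PD
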