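import Mathlib
import Pool.Agent.K9h10.PD.Fin
import Pool.Agent.K9h10.PD.Est
import Pool.Agent.TH461.AL.Nl

/-! # Multiples by products of powers of `q` and integers with few nonzero digits -/

set_option autoImplicit false

open Finset Filter Topology

namespace Pool.Agent.K9h10.PD

open Pool.Agent.H534R3.UDist (ee norm_ee)
open Pool.Agent.K9h10.SM (nd nd_nonneg nd_int_mul ee_add)

lemma nd_ge {x : ℝ} (n : ℤ) (h1 : n + 1 / 4 ≤ x) (h2 : x ≤ n + 3 / 4) : 1 / 4 ≤ nd x := by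
  unfold nd
  set r : ℤ := round x
  rcases le_or_gt r n with h | h
  · have : (r : ℝ) ≤ n := by exact_mod_cast h
    rw [le_abs]
    left
    linarith
  · have : (n : ℝ) + 1 ≤ r := by exact_mod_cast h
    rw [le_abs]
    right
    linarith

/-- the word for the frequency `g` -/
lemma word_good {b k g : ℕ} (hg : 0 < g) (hk : 8 * g ≤ b ^ k) {z : ℝ} {i : ℕ}
    (h : ⌊(b : ℝ) ^ (i + k) * z⌋ % ((b : ℤ) ^ k) = ((b ^ k / (2 * g) : ℕ) : ℤ)) :
    1 / 4 ≤ nd (g * ((b : ℝ) ^ i * z)) := by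
  set W : ℕ := b ^ k / (2 * g) with hW
  have hbk : 0 < b ^ k := by omega
  have hbkR : (0 : ℝ) < (b : ℝ) ^ k := by exact_mod_cast hbk
  have hgR : (0 : ℝ) < g := by exact_mod_cast hg
  set m : ℤ := ⌊(b : ℝ) ^ (i + k) * z⌋ / ((b : ℤ) ^ k) with hm
  have h1 := Int.mul_ediv_add_emod ⌊(b : ℝ) ^ (i + k) * z⌋ ((b : ℤ) ^ k)
  rw [h, ← hm] at h1
  have h2 := Int.floor_le ((b : ℝ) ^ (i + k) * z)
  have h3 := Int.lt_floor_add_one ((b : ℝ) ^ (i + k) * z)
  rw [← h1] at h2 h3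
  push_cast at h2 h3
  have e1 : (b : ℝ) ^ (i + k) * z = (b : ℝ) ^ k * ((b : ℝ) ^ i * z) := by rw [pow_add]; ring
  rw [e1] at h2 h3
  -- the quotient
  have h4 : (2 * g) * W ≤ b ^ k := Nat.mul_div_le _ _
  have h5 : b ^ k < (2 * g) * (W + 1) := Nat.lt_mul_div_succ _ (by omega)
  have h4R : (2 * (g : ℝ)) * W ≤ (b : ℝ) ^ k := by exact_mod_cast h4
  have h5R : (b : ℝ) ^ k < (2 * (g : ℝ)) * (W + 1) := by exact_mod_cast h5
  have hkR : 8 * (g : ℝ) ≤ (b : ℝ) ^ k := by exact_mod_cast hk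
  set f : ℝ := (b : ℝ) ^ i * z - m with hf
  have h6 : (W : ℝ) ≤ (b : ℝ) ^ k * f := by rw [hf]; linarith
  have h7 : (b : ℝ) ^ k * f ≤ W + 1 := by rw [hf]; linarith
  have e2 : (g : ℝ) * ((b : ℝ) ^ i * z) = ((g * m : ℤ) : ℝ) + g * f := by
    rw [hf]
    push_cast
    ring
  refine nd_ge ((g : ℤ) * m) ?_ ?_
  · rw [e2]
    have h8 : 1 / 4 ≤ (g : ℝ) * f := by
      have h9 : (b : ℝ) ^ k * (1 / 4) ≤ (b : ℝ) ^ k * (g * f) := by
        have h10 : (g : ℝ) * W ≤ g * ((b : ℝ) ^ k * f) := mul_le_mul_of_nonneg_left h6 hgR.le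
        nlinarith
      exact le_of_mul_le_mul_left h9 hbkR
    push_cast
    linarith
  · rw [e2]
    have h8 : (g : ℝ) * f ≤ 3 / 4 := by
      have h9 : (b : ℝ) ^ k * (g * f) ≤ (b : ℝ) ^ k * (3 / 4) := by
        have h10 : (g : ℝ) * ((b : ℝ) ^ k * f) ≤ g * (W + 1) := mul_le_mul_of_nonneg_left h7 hgR.le
        nlinarith
      exact le_of_mul_le_mul_left h9 hbkR
    push_cast
    linarith

/-- same parity -/
lemma parity (S : Finset ℕ) : ∃ S' ⊆ S, (∀ i ∈ S', ∀ l ∈ S', i % 2 = l % 2) ∧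
    (S.card : ℝ) / 2 ≤ S'.card := by
  have h := Finset.card_filter_add_card_filter_not (s := S) (fun i => i % 2 = 0)
  rcases le_total (S.filter fun i => i % 2 = 0).card (S.filter fun i => ¬ i % 2 = 0).card with h1 | h1
  · refine ⟨S.filter fun i => ¬ i % 2 = 0, filter_subset _ _, fun i hi l hl => ?_, ?_⟩
    · rw [mem_filter] at hi hl
      omega
    · have : (S.card : ℝ) ≤ 2 * ((S.filter fun i => ¬ i % 2 = 0).card : ℝ) := by
        exact_mod_cast (by omega : S.card ≤ 2 * (S.filter fun i => ¬ i % 2 = 0).card)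
      linarith
  · refine ⟨S.filter fun i => i % 2 = 0, filter_subset _ _, fun i hi l hl => ?_, ?_⟩
    · rw [mem_filter] at hi hl
      omega
    · have : (S.card : ℝ) ≤ 2 * ((S.filter fun i => i % 2 = 0).card : ℝ) := by
        exact_mod_cast (by omega : S.card ≤ 2 * (S.filter fun i => i % 2 = 0).card)
      linarith

/-- the exponential sums -/
lemma bound_places {b : ℕ} (hb : 2 ≤ b) {z : ℝ} {h N L : ℕ} (hN8 : 8 ≤ N)
    (hLN : L + 1 ≤ N) (S0 : Finset ℕ) (hS0 : S0 ⊆ range L)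
    (hgood : ∀ i ∈ S0, 1 / 4 ≤ nd (((((b - 1) * (b - 1).factorial) * h : ℕ) : ℝ) * ((b : ℝ) ^ i * z)))
    (κ : Fin b → ℕ) (hκ : ∑ c, κ c = N) (R : ℝ) (hR0 : 0 ≤ R) (hR : ∀ c, R ≤ (N : ℝ) - κ c) (M : ℝ)
    (hM : 0 < M) (hMR : M * N ≤ S0.card / 2 * R) :
    ‖∑ a ∈ Wd N κ, ee (h * z * vl a)‖ ≤
      (Real.exp (-((1 / (4 * ((b - 1).factorial : ℝ))) ^ 2 * M)) + 36 / M) * (Wd N κ).card := by
  set F : ℕ := (b - 1).factorial with hF
  have hF0 : 0 < F := Nat.factorial_pos _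
  have hFR : (0 : ℝ) < F := by exact_mod_cast hF0
  have hb0 : (0 : ℝ) < b := by exact_mod_cast (by omega : 0 < b)
  obtain ⟨S, hSS, hpar, hScard⟩ := parity S0
  have hSL : ∀ i ∈ S, i < L := fun i hi => mem_range.1 (hS0 (hSS hi))
  set u : ℕ → Fin N := fun i => ⟨min i (N - 1), by omega⟩ with hu
  set v : ℕ → Fin N := fun i => ⟨min (i + 1) (N - 1), by omega⟩ with hv
  have hu1 : ∀ i ∈ S, ((u i : Fin N) : ℕ) = i := fun i hi => by
    have := hSL i hi
    simp only [hu]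
    omega
  have hv1 : ∀ i ∈ S, ((v i : Fin N) : ℕ) = i + 1 := fun i hi => by
    have := hSL i hi
    simp only [hv]
    omega
  refine weyl_bound (κ := κ) S u v (h * z) (1 / (4 * (F : ℝ))) (by positivity)
    (fun i hi h0 => ?_) (fun i hi l hl hil => ?_) (fun i hi a ha => ?_) hN8 ?_ hκ R hR M hM ?_
  · have := congrArg Fin.val h0
    rw [hu1 i hi, hv1 i hi] at this
    omega
  · have h1 := hpar i hi l hl
    have h2 : ∀ {p q : Fin N}, (p : ℕ) ≠ q → p ≠ q := fun h' h'' => h' (congrArg Fin.val h'')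
    refine ⟨h2 ?_, h2 ?_, h2 ?_, h2 ?_⟩
    · rw [hu1 i hi, hu1 l hl]; exact hil
    · rw [hu1 i hi, hv1 l hl]; omega
    · rw [hv1 i hi, hu1 l hl]; omega
    · rw [hv1 i hi, hv1 l hl]; omega
  · -- the good places
    set x : ℤ := ((a (v i) : ℕ) : ℤ) - ((a (u i) : ℕ) : ℤ) with hx
    have hx0 : x ≠ 0 := by
      intro h0
      apply ha
      apply Fin.ext
      omega
    have hxb : x.natAbs ≤ b - 1 := by
      have h1 := (a (v i)).2
      have h2 := (a (u i)).2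
      omega
    have hdvd : x ∣ (F : ℤ) := by
      rw [← Int.natAbs_dvd]
      have h5 : 0 < x.natAbs := by omega
      exact_mod_cast Nat.dvd_factorial h5 hxb
    obtain ⟨s, hs⟩ := hdvd
    have hsR : (F : ℝ) = x * s := by exact_mod_cast hs
    have hs1 : |((-s : ℤ) : ℝ)| ≤ F := by
      have h5 : |(F : ℝ)| = |(x : ℝ)| * |(s : ℝ)| := by rw [hsR, abs_mul]
      rw [abs_of_pos hFR] at h5
      have h6 : (1 : ℝ) ≤ |(x : ℝ)| := by exact_mod_cast Int.one_le_abs hx0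
      push_cast
      rw [abs_neg]
      nlinarith [abs_nonneg (s : ℝ)]
    have hdv : dv (u i) (v i) a = -((x : ℝ) * (((b : ℝ) - 1) * (b : ℝ) ^ i)) := by
      unfold dv
      rw [hx, hu1 i hi, hv1 i hi]
      push_cast
      ring
    have h4 := nd_int_mul (-s) (h * z * dv (u i) (v i) a)
    have e4 : ((-s : ℤ) : ℝ) * (h * z * dv (u i) (v i) a) =
        ((((b - 1) * F) * h : ℕ) : ℝ) * ((b : ℝ) ^ i * z) := by
      rw [hdv]
      push_cast
      rw [Nat.cast_sub (by omega : 1 ≤ b), hsR]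
      push_cast
      ring
    rw [e4] at h4
    have h7 := (hgood i (hSS hi)).trans h4
    have h8 : 1 / 4 ≤ F * nd (h * z * dv (u i) (v i) a) :=
      h7.trans (mul_le_mul_of_nonneg_right hs1 (nd_nonneg _))
    have e8 : 1 / (4 * (F : ℝ)) = 1 / 4 / F := by
      field_simp
    rw [e8, div_le_iff₀ hFR]
    linarith
  · have h1 : S.card ≤ L := by
      calc S.card ≤ (range L).card := card_le_card fun i hi => mem_range.2 (hSL i hi)
        _ = L := card_range L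
    exact_mod_cast (by omega : S.card ≤ N)
  · exact hMR.trans (mul_le_mul_of_nonneg_right hScard hR0)

/-- **Equidistribution for almost all `n`.** -/
theorem main_qn {b q : ℕ} (hb : 2 ≤ b) (hq : 2 ≤ q) (hco : Nat.Coprime b q) {α : ℝ}
    (hα : Irrational α) (hL : ¬ Liouville α) :
    ∃ C : ℕ, ∀ s t : ℝ, 0 ≤ s → s ≤ t → t ≤ 1 → ∀ ε δ η : ℝ, 0 < ε → 0 < δ → 0 < η →
      ∃ M₀ : ℕ, ∀ M : ℕ, M₀ ≤ M → ∃ B : Finset ℕ, B ⊆ range M ∧ (B.card : ℝ) ≤ δ * M ∧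
        ∀ n < M, n ∉ B → ∀ (y : ℝ) (N : ℕ) (κ : Fin b → ℕ), C * M ≤ N → ∑ c, κ c = N →
          (∀ c, N * (M : ℝ) ^ (η - 1) ≤ (N : ℝ) - κ c) →
          |((((Wd N κ).filter fun a => s ≤ Int.fract (y + (q : ℝ) ^ n * α * vl a) ∧
            Int.fract (y + (q : ℝ) ^ n * α * vl a) < t).card : ℕ) : ℝ)
            - (t - s) * (Wd N κ).card| ≤ ε * (Wd N κ).card := by
  classical
  obtain ⟨C₀, hC₀⟩ := Pool.Agent.TH461.AL.Nl.nl_words hb hq hco hα hL
  refine ⟨C₀ + 1, fun s t hs hst ht ε δ η hε hδ hη => ?_⟩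
  obtain ⟨H, hH, hfw⟩ := finite_weyl s t hs hst ht ε hε
  set F : ℕ := (b - 1).factorial with hF
  have hF0 : 0 < F := Nat.factorial_pos _
  have hFR : (0 : ℝ) < F := by exact_mod_cast hF0
  set T : ℕ := (b - 1) * F with hT
  have hT0 : 0 < T := Nat.mul_pos (by omega) hF0
  obtain ⟨k, hk⟩ : ∃ k : ℕ, 8 * (T * H) ≤ b ^ k := by
    obtain ⟨k, hk⟩ := pow_unbounded_of_one_lt (8 * (T * H)) (by omega : 1 < b)
    exact ⟨k, hk.le⟩
  obtain ⟨M₁, hM₁⟩ := hC₀ k (η / 2) δ (by positivity) hδ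
  have hlim : Tendsto (fun M : ℕ => Real.exp (-((1 / (4 * (F : ℝ))) ^ 2 * ((M : ℝ) ^ (η / 2) / 2))) +
      36 / ((M : ℝ) ^ (η / 2) / 2)) atTop (𝓝 0) := by
    have h1 : Tendsto (fun M : ℕ => (M : ℝ) ^ (η / 2) / 2) atTop atTop :=
      ((tendsto_rpow_atTop (by positivity : 0 < η / 2)).comp
        tendsto_natCast_atTop_atTop).atTop_div_const (by norm_num)
    have h2 : Tendsto (fun M : ℕ => Real.exp (-((1 / (4 * (F : ℝ))) ^ 2 * ((M : ℝ) ^ (η / 2) / 2))))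
        atTop (𝓝 0) :=
      Real.tendsto_exp_neg_atTop_nhds_zero.comp (h1.const_mul_atTop (by positivity))
    have h3 : Tendsto (fun M : ℕ => 36 / ((M : ℝ) ^ (η / 2) / 2)) atTop (𝓝 0) :=
      tendsto_const_nhds.div_atTop h1
    simpa using h2.add h3
  obtain ⟨M₂, hM₂⟩ := eventually_atTop.1 (hlim.eventually
    (gt_mem_nhds (show (0 : ℝ) < 1 / (H : ℝ) by positivity)))
  refine ⟨max (max M₁ M₂) 8, fun M hM => ?_⟩
  have hMM1 : M₁ ≤ M := ((le_max_left _ _).trans (le_max_left _ _)).trans hM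
  have hMM2 : M₂ ≤ M := ((le_max_right _ _).trans (le_max_left _ _)).trans hM
  have hM8 : 8 ≤ M := (le_max_right _ _).trans hM
  refine ⟨_, filter_subset _ _, hM₁ M hMM1, fun n hn hnB y N κ hN hκ hcond => ?_⟩
  rw [mem_filter, not_and, not_not] at hnB
  have hwords := hnB (mem_range.2 hn)
  have hMR : (8 : ℝ) ≤ M := by exact_mod_cast hM8
  have hM0 : (0 : ℝ) < M := by linarith
  have hNM : M ≤ N := by nlinarith
  have hN8 : 8 ≤ N := by omega
  have hLN : C₀ * M + 1 ≤ N := by nlinarith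
  have hNR : (0 : ℝ) < N := by exact_mod_cast (by omega : 0 < N)
  have hP : 0 < (M : ℝ) ^ (η / 2) / 2 := by positivity
  refine hfw (Fin N → Fin b) (Wd N κ) (fun a => y + (q : ℝ) ^ n * α * vl a) fun h hh hhH => ?_
  have hg0 : 0 < T * h := Nat.mul_pos hT0 (by omega)
  have hgk : 8 * (T * h) ≤ b ^ k := le_trans (by gcongr) hk
  have hWlt : b ^ k / (2 * (T * h)) < b ^ k := Nat.div_lt_self (by omega) (by omega)
  have hS := hwords _ hWlt
  set S0 : Finset ℕ := (range (C₀ * M)).filter (fun i : ℕ =>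
    ⌊(b : ℝ) ^ (i + k) * ((q : ℝ) ^ n * α)⌋ % ((b : ℤ) ^ k) = ((b ^ k / (2 * (T * h)) : ℕ) : ℤ)) with hS0
  have hb1 := bound_places hb (z := (q : ℝ) ^ n * α) (h := h) hN8 hLN S0 (filter_subset _ _)
    (fun i hi => by
      rw [hS0, mem_filter] at hi
      exact word_good hg0 hgk hi.2) κ hκ (N * (M : ℝ) ^ (η - 1)) (by positivity) hcond
    ((M : ℝ) ^ (η / 2) / 2) hP (by
      have h1 : (M : ℝ) ^ (1 - η / 2) * (M : ℝ) ^ (η - 1) = (M : ℝ) ^ (η / 2) := by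
        rw [← Real.rpow_add hM0]
        congr 1
        ring
      have h2 : 0 < (M : ℝ) ^ (η - 1) := by positivity
      rw [← h1]
      have h3 : (M : ℝ) ^ (1 - η / 2) * (M : ℝ) ^ (η - 1) ≤ S0.card * (M : ℝ) ^ (η - 1) :=
        mul_le_mul_of_nonneg_right hS h2.le
      calc (M : ℝ) ^ (1 - η / 2) * (M : ℝ) ^ (η - 1) / 2 * N
          ≤ S0.card * (M : ℝ) ^ (η - 1) / 2 * N := by gcongr
        _ = S0.card / 2 * (N * (M : ℝ) ^ (η - 1)) := by ring)
  have h5 : ‖∑ a ∈ Wd N κ, ee (h * (y + (q : ℝ) ^ n * α * vl a))‖ =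
      ‖∑ a ∈ Wd N κ, ee (h * ((q : ℝ) ^ n * α) * vl a)‖ := by
    have h6 : ∀ a ∈ Wd N κ, ee (h * (y + (q : ℝ) ^ n * α * vl a)) =
        ee (h * y) * ee (h * ((q : ℝ) ^ n * α) * vl a) := by
      intro a _
      rw [← ee_add]
      congr 1
      ring
    rw [sum_congr rfl h6, ← mul_sum, norm_mul, norm_ee, one_mul]
  rw [h5]
  refine hb1.trans (mul_le_mul_of_nonneg_right ?_ (Nat.cast_nonneg _))
  exact (hM₂ M hMM2).le

end Pool.Agent.K9h10.PD
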