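import Mathlib
import Pool.Agent.K9h10.PD.Qn
import Pool.Agent.Y949.LW.Pi

/-! # Multiples by products of powers of `q` and integers with few nonzero digits, in windows -/

set_option autoImplicit false

open Finset Filter Topology

namespace Pool.Agent.K9h10.PD

open Pool.Agent.H534R3.UDist (ee norm_ee)
open Pool.Agent.K9h10.SM (nd nd_nonneg nd_int_mul ee_add)
open Pool.Agent.Y949.LW (Occ occ_finite)

open Classical in
/-- from words in windows to equidistribution -/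
theorem main_words {b q : ℕ} (hb : 2 ≤ b) {x : ℝ} (len : ℕ → ℕ → ℕ → ℝ)
    (hwords : ∀ k R : ℕ, ∀ ε δ : ℝ, 0 < ε → 0 < δ → ∃ M0 : ℕ, ∀ M J a : ℕ, M0 ≤ M → 1 ≤ a →
      (((range M).filter (fun t : ℕ => ¬ ∀ u ≤ R * (J + M), ∀ W < b ^ k,
        (M : ℝ) ^ (1 - ε) ≤ ((Occ b k (a * (q : ℝ) ^ (J + t) * x) u
          (u + len u a (J + t)) W).ncard : ℝ))).card : ℝ) ≤ δ * M)
    (R : ℕ) (s t : ℝ) (hs : 0 ≤ s) (hst : s ≤ t) (ht : t ≤ 1) (ε δ η : ℝ) (hε : 0 < ε) (hδ : 0 < δ)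
    (hη : 0 < η) :
    ∃ M₀ : ℕ, ∀ M J a : ℕ, M₀ ≤ M → 1 ≤ a → ∃ B : Finset ℕ, B ⊆ range M ∧ (B.card : ℝ) ≤ δ * M ∧
      ∀ n < M, n ∉ B → ∀ u ≤ R * (J + M), ∀ (y : ℝ) (N : ℕ) (κ : Fin b → ℕ),
        len u a (J + n) ≤ N → ∑ c, κ c = N → (∀ c, N * (M : ℝ) ^ (η - 1) ≤ (N : ℝ) - κ c) →
          |((((Wd N κ).filter fun d =>
              s ≤ Int.fract (y + (b : ℝ) ^ u * (a * (q : ℝ) ^ (J + n) * x) * vl d) ∧
              Int.fract (y + (b : ℝ) ^ u * (a * (q : ℝ) ^ (J + n) * x) * vl d) < t).card : ℕ) : ℝ)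
            - (t - s) * (Wd N κ).card| ≤ ε * (Wd N κ).card := by
  obtain ⟨H, hH, hfw⟩ := finite_weyl s t hs hst ht ε hε
  set F : ℕ := (b - 1).factorial with hF
  have hF0 : 0 < F := Nat.factorial_pos _
  have hFR : (0 : ℝ) < F := by exact_mod_cast hF0
  set T : ℕ := (b - 1) * F with hT
  have hT0 : 0 < T := Nat.mul_pos (by omega) hF0
  obtain ⟨k, hk2, hk⟩ : ∃ k : ℕ, 2 ≤ k ∧ 8 * (T * H) ≤ b ^ k := by
    obtain ⟨k, hk⟩ := pow_unbounded_of_one_lt (8 * (T * H)) (by omega : 1 < b)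
    exact ⟨k + 2, by omega, hk.le.trans (Nat.pow_le_pow_right (by omega) (by omega))⟩
  obtain ⟨M₁, hM₁⟩ := hwords k R (min (η / 2) (1 / 2)) δ (by positivity) hδ
  have hlim : Tendsto (fun M : ℕ => Real.exp (-((1 / (4 * (F : ℝ))) ^ 2 * ((M : ℝ) ^ (η / 2) / 2))) +
      36 / ((M : ℝ) ^ (η / 2) / 2)) atTop (𝓝 0) := by
    have h1 : Tendsto (fun M : ℕ => (M : ℝ) ^ (η / 2) / 2) atTop atTop :=
      ((tendsto_rpow_atTop (by positivity : 0 < η / 2)).comp
        tendsto_natCast_atTop_atTop).atTop_div_const (by norm_num)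
    have h2 : Tendsto (fun M : ℕ => Real.exp (-((1 / (4 * (F : ℝ))) ^ 2 * ((M : ℝ) ^ (η / 2) / 2))))
        atTop (𝓝 0) :=
      Real.tendsto_exp_neg_atTop_nhds_zero.comp (h1.const_mul_atTop (by positivity))
    have h3 : Tendsto (fun M : ℕ => 36 / ((M : ℝ) ^ (η / 2) / 2)) atTop (𝓝 0) :=
      tendsto_const_nhds.div_atTop h1
    simpa using h2.add h3
  obtain ⟨M₂, hM₂⟩ := eventually_atTop.1 (hlim.eventually
    (gt_mem_nhds (show (0 : ℝ) < 1 / (H : ℝ) by positivity)))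
  refine ⟨max (max M₁ M₂) 100, fun M J a hM ha => ?_⟩
  have hMM1 : M₁ ≤ M := ((le_max_left _ _).trans (le_max_left _ _)).trans hM
  have hMM2 : M₂ ≤ M := ((le_max_right _ _).trans (le_max_left _ _)).trans hM
  have hM100 : 100 ≤ M := (le_max_right _ _).trans hM
  refine ⟨_, filter_subset _ _, hM₁ M J a hMM1 ha, fun n hn hnB u hu y N κ hN hκ hcond => ?_⟩
  rw [mem_filter, not_and, not_not] at hnB
  have hwords := hnB (mem_range.2 hn) u hu
  have hMR : (100 : ℝ) ≤ M := by exact_mod_cast hM100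
  have hM0 : (0 : ℝ) < M := by linarith
  set ξ : ℝ := a * (q : ℝ) ^ (J + n) * x with hξ
  have hP : 0 < (M : ℝ) ^ (η / 2) / 2 := by positivity
  have hexp1 : (M : ℝ) ^ (1 - η / 2) ≤ (M : ℝ) ^ (1 - min (η / 2) (1 / 2)) :=
    Real.rpow_le_rpow_of_exponent_le (by linarith) (by linarith [min_le_left (η / 2) (1 / 2)])
  have hexp2 : (10 : ℝ) ≤ (M : ℝ) ^ (1 - min (η / 2) (1 / 2)) := by
    calc (10 : ℝ) = (100 : ℝ) ^ (1 / 2 : ℝ) := by
          rw [← Real.sqrt_eq_rpow, show (100 : ℝ) = 10 ^ 2 by norm_num,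
            Real.sqrt_sq (by norm_num)]
      _ ≤ (M : ℝ) ^ (1 / 2 : ℝ) := Real.rpow_le_rpow (by norm_num) hMR (by norm_num)
      _ ≤ _ := Real.rpow_le_rpow_of_exponent_le (by linarith)
            (by linarith [min_le_right (η / 2) (1 / 2)])
  -- the places, relative to `u`
  have hplace : ∀ W, ∃ S : Finset ℕ, S ⊆ range (N - 1) ∧
      (S.card : ℝ) = ((Occ b k ξ u (u + len u a (J + n)) W).ncard : ℝ) ∧
      ∀ i ∈ S, ⌊(b : ℝ) ^ (i + k) * ((b : ℝ) ^ u * ξ)⌋ % ((b : ℤ) ^ k) = (W : ℤ) := by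
    intro W
    have hfin := occ_finite b k ξ u (u + len u a (J + n)) W
    refine ⟨hfin.toFinset.image fun i => i - u, ?_, ?_, ?_⟩
    · intro i' hi'
      rw [mem_image] at hi'
      obtain ⟨i, hi, rfl⟩ := hi'
      rw [Set.Finite.mem_toFinset] at hi
      obtain ⟨h1, h2, -⟩ := hi
      rw [mem_range]
      have h3 : (i : ℝ) + k ≤ u + N := by linarith
      have h4 : i + k ≤ u + N := by exact_mod_cast h3
      omega
    · rw [Finset.card_image_of_injOn, Set.ncard_eq_toFinset_card _ hfin]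
      intro i hi l hl hil
      rw [Set.Finite.coe_toFinset] at hi hl
      have h1 := hi.1
      have h2 := hl.1
      simp only at hil
      omega
    · intro i' hi'
      rw [mem_image] at hi'
      obtain ⟨i, hi, rfl⟩ := hi'
      rw [Set.Finite.mem_toFinset] at hi
      obtain ⟨h1, -, h3⟩ := hi
      have e : (b : ℝ) ^ (i - u + k) * ((b : ℝ) ^ u * ξ) = (b : ℝ) ^ (i + k) * ξ := by
        rw [← mul_assoc, ← pow_add]
        congr 2
        omega
      rw [e]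
      exact h3
  have hN8 : 8 ≤ N := by
    obtain ⟨S, hS1, hS2, -⟩ := hplace 0
    have h1 := hwords 0 (by positivity)
    rw [← hS2] at h1
    have h2 : (10 : ℝ) ≤ S.card := hexp2.trans h1
    have h3 : S.card ≤ N - 1 := by
      calc S.card ≤ (range (N - 1)).card := card_le_card hS1
        _ = N - 1 := card_range _
    have h4 : 10 ≤ S.card := by exact_mod_cast h2
    omega
  have hNR : (0 : ℝ) < N := by exact_mod_cast (by omega : 0 < N)
  refine hfw (Fin N → Fin b) (Wd N κ) (fun d => y + (b : ℝ) ^ u * ξ * vl d) fun h hh hhH => ?_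
  have hg0 : 0 < T * h := Nat.mul_pos hT0 (by omega)
  have hgk : 8 * (T * h) ≤ b ^ k := le_trans (by gcongr) hk
  have hWlt : b ^ k / (2 * (T * h)) < b ^ k := Nat.div_lt_self (by omega) (by omega)
  have hS := hwords _ hWlt
  obtain ⟨S0, hS1, hS2, hS3⟩ := hplace (b ^ k / (2 * (T * h)))
  rw [← hS2] at hS
  have hb1 := bound_places hb (z := (b : ℝ) ^ u * ξ) (h := h) hN8 (L := N - 1) (by omega) S0 hS1
    (fun i hi => word_good hg0 hgk (hS3 i hi)) κ hκ (N * (M : ℝ) ^ (η - 1)) (by positivity) hcond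
    ((M : ℝ) ^ (η / 2) / 2) hP (by
      have h1 : (M : ℝ) ^ (1 - η / 2) * (M : ℝ) ^ (η - 1) = (M : ℝ) ^ (η / 2) := by
        rw [← Real.rpow_add hM0]
        congr 1
        ring
      have h2 : 0 < (M : ℝ) ^ (η - 1) := by positivity
      rw [← h1]
      have h3 : (M : ℝ) ^ (1 - η / 2) * (M : ℝ) ^ (η - 1) ≤ S0.card * (M : ℝ) ^ (η - 1) :=
        mul_le_mul_of_nonneg_right (hexp1.trans hS) h2.le
      calc (M : ℝ) ^ (1 - η / 2) * (M : ℝ) ^ (η - 1) / 2 * N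
          ≤ S0.card * (M : ℝ) ^ (η - 1) / 2 * N := by gcongr
        _ = S0.card / 2 * (N * (M : ℝ) ^ (η - 1)) := by ring)
  have h5 : ‖∑ d ∈ Wd N κ, ee (h * (y + (b : ℝ) ^ u * ξ * vl d))‖ =
      ‖∑ d ∈ Wd N κ, ee (h * ((b : ℝ) ^ u * ξ) * vl d)‖ := by
    have h6 : ∀ d ∈ Wd N κ, ee (h * (y + (b : ℝ) ^ u * ξ * vl d)) =
        ee (h * y) * ee (h * ((b : ℝ) ^ u * ξ) * vl d) := by
      intro d _
      rw [← ee_add]
      congr 1
      ring
    rw [sum_congr rfl h6, ← mul_sum, norm_mul, norm_ee, one_mul]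
  rw [h5]
  refine hb1.trans (mul_le_mul_of_nonneg_right ?_ (Nat.cast_nonneg _))
  exact (hM₂ M hMM2).le

end Pool.Agent.K9h10.PD
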