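import Mathlib
import Pool.Agent.K9h10.PD.Qw
import Pool.Agent.Y951.SW.Alg
import Pool.Agent.K9h10.SM.NonLiou

/-! # The windows for numbers with a measure of irrationality and for algebraic numbers -/

set_option autoImplicit false

open Finset Filter Topology

namespace Pool.Agent.K9h10.PD

open Pool.Agent.Y949.LW (Occ occ_finite exists_core)
open Pool.Agent.H706R2 (dZ)

/-- a measure of irrationality -/
lemma measure_of_nonLiouville {x : ℝ} (hx : Irrational x) (hL : ¬ Liouville x) :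
    ∃ κ c : ℝ, 0 < κ ∧ 0 < c ∧ ∀ Q : ℕ, 1 ≤ Q → ∀ P : ℤ, c ≤ (Q : ℝ) ^ κ * |Q * x - P| := by
  obtain ⟨m, hm⟩ := Pool.Agent.TH461.AL.Rea.dio hx hL
  have hpos : 0 < |x - round x| := by
    rw [abs_pos, sub_ne_zero]
    exact hx.ne_int _
  refine ⟨m + 1, min 1 |x - round x|, by positivity, lt_min one_pos hpos, fun Q hQ P => ?_⟩
  have hQR : (1 : ℝ) ≤ Q := by exact_mod_cast hQ
  have hQ0 : (0 : ℝ) < Q := by linarith
  rcases Nat.lt_or_ge 1 Q with h | h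
  · refine (min_le_left _ _).trans ?_
    have h1 := hm Q h
    unfold dZ at h1
    have h2 := h1.trans (round_le ((Q : ℝ) * x) P)
    rw [div_le_iff₀ (by positivity)] at h2
    have h3 : |(Q : ℝ) * x - P| * (Q : ℝ) ^ m ≤ (Q : ℝ) ^ ((m : ℝ) + 1) * |(Q : ℝ) * x - P| := by
      rw [mul_comm]
      refine mul_le_mul_of_nonneg_right ?_ (abs_nonneg _)
      rw [← Real.rpow_natCast]
      exact Real.rpow_le_rpow_of_exponent_le hQR (by linarith)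
    exact h2.trans h3
  · obtain rfl : Q = 1 := by omega
    refine (min_le_right _ _).trans ?_
    rw [Nat.cast_one, one_mul, Real.one_rpow, one_mul]
    exact round_le x P

/-- the words in windows, for a number with a measure of irrationality -/
lemma words_of_measure {b q : ℕ} (hb : 2 ≤ b) (hq : 2 ≤ q)
    (hbq : Nat.Coprime b q ∨ ∃ v : ℕ, 2 ≤ v ∧ Nat.Coprime q v ∧ b = q * v)
    {x κ c0 : ℝ} (hκ : 0 < κ) (hc0 : 0 < c0)
    (hx : ∀ Q : ℕ, 1 ≤ Q → ∀ P : ℤ, c0 ≤ (Q : ℝ) ^ κ * |Q * x - P|) {C : ℝ} (hC : κ < C)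
    (R : ℕ) (s t : ℝ) (hs : 0 ≤ s) (hst : s ≤ t) (ht : t ≤ 1) (ε δ η : ℝ) (hε : 0 < ε) (hδ : 0 < δ)
    (hη : 0 < η) :
    ∃ M₀ : ℕ, ∀ M J a : ℕ, M₀ ≤ M → 1 ≤ a → ∃ B : Finset ℕ, B ⊆ range M ∧ (B.card : ℝ) ≤ δ * M ∧
      ∀ n < M, n ∉ B → ∀ u ≤ R * (J + M), ∀ (y : ℝ) (N : ℕ) (κ : Fin b → ℕ),
        C * (u + (Real.log a + ((J + n : ℕ) : ℝ) * Real.log q) / Real.log b) ≤ N →
        ∑ c, κ c = N → (∀ c, N * (M : ℝ) ^ (η - 1) ≤ (N : ℝ) - κ c) →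
          |((((Wd N κ).filter fun d =>
              s ≤ Int.fract (y + (b : ℝ) ^ u * (a * (q : ℝ) ^ (J + n) * x) * vl d) ∧
              Int.fract (y + (b : ℝ) ^ u * (a * (q : ℝ) ^ (J + n) * x) * vl d) < t).card : ℕ) : ℝ)
            - (t - s) * (Wd N κ).card| ≤ ε * (Wd N κ).card := by
  obtain ⟨r, D, k0, -, hrb, hD, hdn⟩ := exists_core hb hq hbq
  exact main_words hb
    (fun u a n => C * (u + (Real.log a + (n : ℝ) * Real.log q) / Real.log b))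
    (fun k R ε δ hε hδ => Pool.Agent.Y949.LW.words hb hq hrb hD hdn hκ hc0 hx k R hC hε hδ)
    R s t hs hst ht ε δ η hε hδ hη

/-- algebraic numbers -/
lemma words_of_alg {b q : ℕ} (hb : 2 ≤ b) (hq : 2 ≤ q)
    (hbq : Nat.Coprime b q ∨ ∃ v : ℕ, 2 ≤ v ∧ Nat.Coprime q v ∧ b = q * v)
    {x : ℝ} (halg : IsAlgebraic ℚ x) (hirr : Irrational x) {C : ℝ} (hC : 0 < C)
    (R : ℕ) (s t : ℝ) (hs : 0 ≤ s) (hst : s ≤ t) (ht : t ≤ 1) (ε δ η : ℝ) (hε : 0 < ε) (hδ : 0 < δ)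
    (hη : 0 < η) :
    ∃ M₀ : ℕ, ∀ M J a : ℕ, M₀ ≤ M → 1 ≤ a → ∃ B : Finset ℕ, B ⊆ range M ∧ (B.card : ℝ) ≤ δ * M ∧
      ∀ n < M, n ∉ B → ∀ u ≤ R * (J + M), ∀ (y : ℝ) (N : ℕ) (κ : Fin b → ℕ),
        C * (u + ((J + n : ℕ) : ℝ) * Real.log q / Real.log b) +
          (1 + C / 2) * (Real.log a / Real.log b) ≤ N →
        ∑ c, κ c = N → (∀ c, N * (M : ℝ) ^ (η - 1) ≤ (N : ℝ) - κ c) →
          |((((Wd N κ).filter fun d =>
              s ≤ Int.fract (y + (b : ℝ) ^ u * (a * (q : ℝ) ^ (J + n) * x) * vl d) ∧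
              Int.fract (y + (b : ℝ) ^ u * (a * (q : ℝ) ^ (J + n) * x) * vl d) < t).card : ℕ) : ℝ)
            - (t - s) * (Wd N κ).card| ≤ ε * (Wd N κ).card := by
  refine main_words hb (fun u a n => C * (u + (n : ℝ) * Real.log q / Real.log b) +
    (1 + C / 2) * (Real.log a / Real.log b)) (fun k R ε δ hε hδ => ?_) R s t hs hst ht ε δ η hε hδ hη
  obtain ⟨M0, h⟩ := Pool.Agent.Y951.SW.words_alg halg hirr b q hb hq hbq k R C ε δ hC hε hδ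
  refine ⟨M0, fun M J a hM ha => ?_⟩
  have h1 := h M J a hM ha
  simp only [add_assoc] at h1 ⊢
  exact h1

end Pool.Agent.K9h10.PD
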